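import Pool.Agent.Lib.MP_192f66_nt.Main2

set_option autoImplicit false

/-!
# The final bounds
-/

namespace Pool.Agent.W192

open Polynomial

section

variable (p : ℕ) [Fact p.Prime]

theorem fam_general (k s r a b : ℕ) (hW : WaringMod p k s) (hr : r * k = a * p + b) (ha : 1 ≤ a)
    (hb : 1 ≤ b) (hab : a + b < p) :
    ∃ E : ZMod p, ∀ (m B : ℕ) (P : (ZMod p)[X]), Fam p (a * p + b) E b a m B P →
      PS k (r * B) ((a + b) * s * m + 0) P := by
  obtain ⟨ε, hε⟩ := exists_weights p (a + b) hab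
  refine ⟨∑ i ∈ Finset.range (a + b), ε i, ?_⟩
  rintro m B P ⟨L, h1, h2, rfl⟩
  suffices h : PS k (r * B) ((a + b) * s * L.length)
      (L.map fun x => Fv p (a * p + b) (∑ i ∈ Finset.range (a + b), ε i) b a x.1 x.2).sum from
    h.mono le_rfl (Nat.mul_le_mul_left _ h1)
  clear h1
  induction L with
  | nil =>
    rw [List.map_nil, List.sum_nil, List.length_nil, mul_zero]
    exact PS.zero
  | cons x L ih =>
    rw [List.map_cons, List.sum_cons, List.length_cons, mul_add, mul_one, add_comm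
      ((a + b) * s * L.length)]
    refine PS.add ?_ (ih fun y hy => h2 y (List.mem_cons_of_mem _ hy))
    have h3 := h2 x List.mem_cons_self
    have h4 := PS_Wf p k s r a b hW hr ε x.1 x.2 B h3.1 h3.2
    rw [Wf, ident p a b ha hb ε hε] at h4
    exact h4

/-- The general bound. -/
theorem bound_general (k s r a b : ℕ) (hk2 : 2 ≤ k) (hkp : k < p)
    (hW : WaringMod p k s) (hr : r * k = a * p + b) (ha : 1 ≤ a) (hb : 1 ≤ b) (hab : a + b < p) :
    ∃ S : ℕ, 0 < S ∧ Enough p k S ∧
      (S : ℝ) ≤ k * (1 + Real.log (r * ((a + b) * s))) + 2 * √k + 7 * ((a + b) * s) + 3 := by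
  have hs : 1 ≤ s := hW.pos
  have hr1 : 1 ≤ r := by
    rcases Nat.eq_zero_or_pos r with h | h
    · rw [h, zero_mul] at hr
      omega
    · exact h
  obtain ⟨E, hE⟩ := fam_general p k s r a b hW hr ha hb hab
  obtain ⟨c, hc⟩ : ∃ c, c = (a + b) * s := ⟨_, rfl⟩
  obtain ⟨L, hL⟩ : ∃ L, L = Nat.sqrt k + 1 := ⟨_, rfl⟩
  have hc2 : 2 * s ≤ c := by
    rw [hc]
    exact Nat.mul_le_mul_right s (by omega)
  have hLp : L ≤ p := by
    have : Nat.sqrt k ≤ k := Nat.sqrt_le_self k
    omega
  obtain ⟨J, B0, h1, h2, h3⟩ := assemble p k s r a b c 0 L hk2 hkp hr1 hW hr ha hb hab (by omega)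
    (by omega) hLp E (by rw [hc]; exact hE)
  refine ⟨_, ?_, h3, ?_⟩
  · omega
  · have hkr : (0 : ℝ) < k := by
      have : 0 < k := by omega
      exact_mod_cast this
    have hLr : (0 : ℝ) < L := by
      have : 0 < L := by omega
      exact_mod_cast this
    have hcr : (0 : ℝ) ≤ c := Nat.cast_nonneg c
    -- the excess term
    have hex : (k : ℝ) * (((r * k - p : ℕ) : ℝ) * L / (p * ((r * k - 1 : ℕ) : ℝ))) ≤ L := by
      have hp2 : 2 ≤ p := (Fact.out : p.Prime).two_le
      have hpn : p < r * k := by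
        have : 1 * p ≤ a * p := Nat.mul_le_mul_right p ha
        omega
      have hp0 : (0 : ℝ) < p := by
        have : 0 < p := by omega
        exact_mod_cast this
      have hn0 : (0 : ℝ) < ((r * k - 1 : ℕ) : ℝ) := by
        have : 0 < r * k - 1 := by omega
        exact_mod_cast this
      have hkp' : (k : ℝ) ≤ p := by exact_mod_cast hkp.le
      have hnn : ((r * k - p : ℕ) : ℝ) ≤ ((r * k - 1 : ℕ) : ℝ) := by
        have : r * k - p ≤ r * k - 1 := by omega
        exact_mod_cast this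
      rw [← mul_div_assoc, div_le_iff₀ (by positivity)]
      have h4 : (k : ℝ) * ((r * k - p : ℕ) : ℝ) ≤ p * ((r * k - 1 : ℕ) : ℝ) :=
        mul_le_mul hkp' hnn (Nat.cast_nonneg _) hp0.le
      have h5 := mul_le_mul_of_nonneg_right h4 hLr.le
      linarith
    have hsq : (L : ℝ) ≤ √k + 1 := by
      rw [hL, Nat.cast_add, Nat.cast_one]
      have := Real.nat_sqrt_le_real_sqrt (a := k)
      linarith
    have hkL : (k : ℝ) / L ≤ √k := by
      rw [div_le_iff₀ hLr]
      have h4 : √(k : ℝ) ≤ L := by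
        rw [hL, Nat.cast_add, Nat.cast_one]
        exact (Real.real_sqrt_lt_nat_sqrt_succ (a := k)).le
      have h5 : √(k : ℝ) * √k = k := Real.mul_self_sqrt hkr.le
      have h6 := mul_le_mul_of_nonneg_left h4 (Real.sqrt_nonneg (k : ℝ))
      linarith
    have hBL : (c : ℝ) * ((B0 / L : ℕ) : ℝ) ≤ √k + c + 1 := by
      have h4 : ((B0 / L : ℕ) : ℝ) ≤ (B0 : ℝ) / L := Nat.cast_div_le
      have h5 := mul_le_mul_of_nonneg_left h4 hcr
      have h6 : (c : ℝ) * (B0 / L) ≤ (k + c + L) / L := by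
        rw [← mul_div_assoc]
        exact div_le_div_of_nonneg_right (by linarith) hLr.le
      have h7 : ((k : ℝ) + c + L) / L = k / L + c / L + 1 := by
        field_simp
      have h8 : (c : ℝ) / L ≤ c := by
        apply div_le_self hcr
        have : 1 ≤ L := by omega
        exact_mod_cast this
      linarith
    have hc2r : (2 : ℝ) * s ≤ c := by exact_mod_cast hc2
    have hcs : (((a : ℝ) + b) * s) = c := by
      rw [hc]
      push_cast
      ring
    rw [hcs]
    rw [← hc]
    push_cast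
    nlinarith

/-- The bound in terms of the minimal number of `k`-th powers modulo `p`. -/
theorem Gfin_general (k r a b : ℕ) (hk2 : 2 ≤ k) (hkp : k < p)
    (hr : r * k = a * p + b) (ha : 1 ≤ a) (hb : 1 ≤ b) (hab : a + b < p) :
    {s : ℕ | 0 < s ∧ Enough p k s}.Nonempty ∧
      (Gfin p k : ℝ) ≤ k * (1 + Real.log (r * ((a + b) * wmod p k))) + 2 * √k +
        7 * ((a + b) * wmod p k) + 3 := by
  obtain ⟨S, h1, h2, h3⟩ := bound_general p k (wmod p k) r a b hk2 hkp
    (waringMod_wmod p k (by omega)) hr ha hb hab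
  exact ⟨⟨S, h1, h2⟩, le_trans (by exact_mod_cast Gfin_le h1 h2) h3⟩

end

end Pool.Agent.W192
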