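import Pool.Agent.Lib.MP_192f66_nt.Defs
import Pool.Agent.Lib.MP_192f66_nt.Final

set_option autoImplicit false

/-!
# Counting sums of `k` `k`-th powers of polynomials over `ZMod p`
-/

namespace Pool.Agent.W192

open Polynomial

variable {p : ℕ} [Fact p.Prime]

/-- the polynomials of degree at most `m` -/
noncomputable def Dg (p m : ℕ) [Fact p.Prime] : Finset (ZMod p)[X] :=
  Set.Finite.toFinset (s := (↑(degreeLT (ZMod p) (m + 1)) : Set (ZMod p)[X]))
    (by
      have : Finite (degreeLT (ZMod p) (m + 1)) :=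
        Finite.of_equiv _ (degreeLTEquiv (ZMod p) (m + 1)).toEquiv.symm
      exact Set.toFinite _)

theorem mem_Dg {m : ℕ} {g : (ZMod p)[X]} : g ∈ Dg p m ↔ g.natDegree ≤ m := by
  rw [Dg, Set.Finite.mem_toFinset, SetLike.mem_coe, mem_degreeLT]
  rcases eq_or_ne g 0 with h | h
  · subst h
    simp [degree_zero, WithBot.bot_lt_iff_ne_bot]
  · rw [← natDegree_lt_iff_degree_lt h]
    omega

theorem card_Dg (m : ℕ) : (Dg p m).card = p ^ (m + 1) := by
  have h1 : Nat.card (degreeLT (ZMod p) (m + 1)) = p ^ (m + 1) := by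
    rw [Nat.card_congr (degreeLTEquiv (ZMod p) (m + 1)).toEquiv, Nat.card_fun]
    simp
  rw [← h1, Dg, ← Nat.card_eq_card_finite_toFinset]
  rfl

open Classical in
/-- the nonzero `k`-th powers of polynomials of degree at most `m` -/
noncomputable def Pw (p k m : ℕ) [Fact p.Prime] : Finset (ZMod p)[X] :=
  ((Dg p m).erase 0).image fun g => g ^ k

open Classical in
theorem card_Pw (k m : ℕ) : Nat.gcd (p - 1) k * (Pw p k m).card + 1 ≤ p ^ (m + 1) := by
  have h0 : (0 : (ZMod p)[X]) ∈ Dg p m := mem_Dg.2 (by simp)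
  rw [← card_Dg m, ← Finset.card_erase_add_one h0]
  refine Nat.add_le_add_right ?_ 1
  rw [Pw]
  refine Finset.mul_card_image_le_card _ _ ?_
  intro q hq
  obtain ⟨g, hg, rfl⟩ := Finset.mem_image.1 hq
  rw [Finset.mem_erase, mem_Dg] at hg
  have hK : Nat.card (powMonoidHom k : (ZMod p)ˣ →* (ZMod p)ˣ).ker = Nat.gcd (p - 1) k := by
    rw [IsCyclic.card_powMonoidHom_ker, Nat.card_eq_fintype_card, ZMod.card_units]
  rw [← hK, Nat.card_eq_fintype_card, ← Finset.card_univ]
  refine Finset.card_le_card_of_injOn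
    (fun z => C ((z.1 : (ZMod p)ˣ) : ZMod p) * g) ?_ ?_
  · intro z _
    have hz : ((z.1 : (ZMod p)ˣ) : ZMod p) ^ k = 1 := by
      have := z.2
      rw [MonoidHom.mem_ker, powMonoidHom_apply] at this
      have h2 := congrArg (Units.val) this
      simpa using h2
    have hz0 : ((z.1 : (ZMod p)ˣ) : ZMod p) ≠ 0 := Units.ne_zero _
    rw [Finset.mem_coe, Finset.mem_filter, Finset.mem_erase, mem_Dg]
    refine ⟨⟨mul_ne_zero (C_ne_zero.2 hz0) hg.1, ?_⟩, ?_⟩
    · rw [natDegree_C_mul hz0]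
      exact hg.2
    · rw [mul_pow, ← C_pow, hz, C_1, one_mul]
  · intro z _ z' _ h
    have h2 := mul_right_cancel₀ hg.1 h
    have h3 := C_injective h2
    exact Subtype.ext (Units.ext h3)

open Classical in
/-- the polynomials of degree `k * m` which are sums of at most `k` `k`-th powers -/
noncomputable def Rp (p k m : ℕ) [Fact p.Prime] : Finset (ZMod p)[X] :=
  (Dg p (k * m)).filter fun f => f.natDegree = k * m ∧ IsRep p k k f

open Classical in
theorem card_Rp_le (k m : ℕ) :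
    (Rp p k m).card ≤ ((insert 0 (Pw p k m)).card + k - 1).choose k := by
  set T := insert 0 (Pw p k m) with hT
  have h1 : Rp p k m ⊆ (Finset.univ : Finset (Sym {q // q ∈ T} k)).image
      fun s : Sym {q // q ∈ T} k => ((s : Multiset {q // q ∈ T}).map Subtype.val).sum := by
    intro f hf
    rw [Rp, Finset.mem_filter] at hf
    obtain ⟨-, hd, r, hr, g, hfg, hg⟩ := hf
    have hmem : ∀ i, g i ^ k ∈ T := by
      intro i
      rw [hT, Finset.mem_insert]
      by_cases h0 : g i ^ k = 0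
      · exact Or.inl h0
      · refine Or.inr ?_
        rw [Pw, Finset.mem_image]
        refine ⟨g i, ?_, rfl⟩
        rw [Finset.mem_erase, mem_Dg]
        have h2 := hg i
        rw [hd] at h2
        have hk : k ≠ 0 := by
          rintro rfl
          omega
        refine ⟨fun h3 => h0 (by rw [h3, zero_pow hk]), ?_⟩
        have h3 : k * (g i).natDegree < k * (m + 1) := by
          rw [Nat.mul_add, mul_one]
          exact h2
        have h4 := Nat.lt_of_mul_lt_mul_left h3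
        omega
    have h0T : (0 : (ZMod p)[X]) ∈ T := by
      rw [hT]
      exact Finset.mem_insert_self _ _
    rw [Finset.mem_image]
    refine ⟨⟨(Finset.univ.val.map fun i => (⟨g i ^ k, hmem i⟩ : {q // q ∈ T})) +
      Multiset.replicate (k - r) ⟨0, h0T⟩, ?_⟩, Finset.mem_univ _, ?_⟩
    · rw [Multiset.card_add, Multiset.card_map, Multiset.card_replicate]
      simp
      omega
    · simp only [Sym.coe_mk, Multiset.map_add, Multiset.map_map, Multiset.map_replicate,
        Multiset.sum_add, Multiset.sum_replicate, smul_zero, add_zero]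
      rw [hfg]
      rfl
  refine le_trans (Finset.card_le_card h1) (le_trans Finset.card_image_le ?_)
  rw [Finset.card_univ, Sym.card_sym_eq_choose, Fintype.card_coe]

theorem count (k m : ℕ) :
    (Rp p k m).card * (k.factorial * Nat.gcd (p - 1) k ^ k) ≤
      (p ^ (m + 1) + k * Nat.gcd (p - 1) k) ^ k := by
  classical
  set w := Nat.gcd (p - 1) k with hw
  have h1 := card_Rp_le (p := p) k m
  have h2 : (insert 0 (Pw p k m)).card + k - 1 ≤ (Pw p k m).card + k := by
    have := Finset.card_insert_le (0 : (ZMod p)[X]) (Pw p k m)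
    omega
  have h3 : (Rp p k m).card * k.factorial ≤ ((Pw p k m).card + k) ^ k := by
    calc (Rp p k m).card * k.factorial
        ≤ ((Pw p k m).card + k).choose k * k.factorial :=
          Nat.mul_le_mul_right _ (le_trans h1 (Nat.choose_le_choose k h2))
      _ = ((Pw p k m).card + k).descFactorial k := by
          rw [Nat.descFactorial_eq_factorial_mul_choose, mul_comm]
      _ ≤ ((Pw p k m).card + k) ^ k := Nat.descFactorial_le_pow _ _
  have h4 := card_Pw (p := p) k m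
  rw [← hw] at h4
  calc (Rp p k m).card * (k.factorial * w ^ k)
      = ((Rp p k m).card * k.factorial) * w ^ k := by ring
    _ ≤ ((Pw p k m).card + k) ^ k * w ^ k := Nat.mul_le_mul_right _ h3
    _ = (w * (Pw p k m).card + k * w) ^ k := by
        rw [← mul_pow]
        ring
    _ ≤ (p ^ (m + 1) + k * w) ^ k := Nat.pow_le_pow_left (by omega) _

theorem card_deg (n : ℕ) (hn : 1 ≤ n) :
    ((Dg p n).filter fun f => f.natDegree = n).card = (p - 1) * p ^ n := by
  classical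
  have h1 : ((Dg p n).filter fun f => f.natDegree = n) = Dg p n \ Dg p (n - 1) := by
    ext f
    simp only [Finset.mem_filter, Finset.mem_sdiff, mem_Dg]
    omega
  have h2 : Dg p (n - 1) ⊆ Dg p n := by
    intro f
    rw [mem_Dg, mem_Dg]
    omega
  rw [h1, Finset.card_sdiff_of_subset h2, card_Dg, card_Dg, Nat.sub_add_cancel hn, pow_succ,
    Nat.sub_mul, one_mul, mul_comm]

theorem IsRep.mono {k s t : ℕ} {f : (ZMod p)[X]} (h : IsRep p k s f) (hst : s ≤ t) :
    IsRep p k t f := by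
  obtain ⟨r, hr, g, h1, h2⟩ := h
  exact ⟨r, hr.trans hst, g, h1, h2⟩

theorem not_enough (k : ℕ) (hk : 1 ≤ k)
    (h : p ^ k < (p - 1) * (k.factorial * Nat.gcd (p - 1) k ^ k)) : ¬ Enough p k k := by
  classical
  rintro ⟨d0, hd⟩
  have hp : 1 < p := (Fact.out : p.Prime).one_lt
  set w := Nat.gcd (p - 1) k with hw
  set A := (p - 1) * (k.factorial * w ^ k) with hA
  have h1 : ∀ m, max d0 1 ≤ m → A * (p ^ m) ^ k ≤ (p ^ (m + 1) + k * w) ^ k := by
    intro m hm
    have hm1 : 1 ≤ m := le_trans (le_max_right _ _) hm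
    have hm2 : d0 ≤ k * m := le_trans (le_trans (le_max_left _ _) hm) (Nat.le_mul_of_pos_left m hk)
    have hsub : ((Dg p (k * m)).filter fun f => f.natDegree = k * m) ⊆ Rp p k m := by
      intro f hf
      rw [Finset.mem_filter] at hf
      rw [Rp, Finset.mem_filter]
      exact ⟨hf.1, hf.2, hd (k * m) hm2 f hf.2⟩
    have h2 := Finset.card_le_card hsub
    rw [card_deg (k * m) (Nat.mul_pos hk hm1)] at h2
    calc A * (p ^ m) ^ k = ((p - 1) * p ^ (k * m)) * (k.factorial * w ^ k) := by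
          rw [hA, ← pow_mul, mul_comm m k]
          ring
      _ ≤ (Rp p k m).card * (k.factorial * w ^ k) := Nat.mul_le_mul_right _ h2
      _ ≤ _ := count k m
  have hp0 : (0 : ℝ) < p := by exact_mod_cast (by omega : 0 < p)
  have h2 : ∀ᶠ m : ℕ in Filter.atTop,
      (A : ℝ) ≤ ((p : ℝ) + (k * w : ℝ) * ((p : ℝ)⁻¹) ^ m) ^ k := by
    filter_upwards [Filter.eventually_ge_atTop (max d0 1)] with m hm
    have h3 : (A : ℝ) * ((p : ℝ) ^ m) ^ k ≤ ((p : ℝ) ^ (m + 1) + k * w) ^ k := by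
      exact_mod_cast h1 m hm
    have h4 : (0 : ℝ) < (p : ℝ) ^ m := by positivity
    have h5 : ((p : ℝ) ^ (m + 1) + k * w) ^ k =
        ((p : ℝ) + (k * w : ℝ) * ((p : ℝ)⁻¹) ^ m) ^ k * ((p : ℝ) ^ m) ^ k := by
      rw [← mul_pow]
      congr 1
      rw [add_mul, mul_assoc, ← mul_pow, inv_mul_cancel₀ hp0.ne', one_pow, mul_one, pow_succ]
      ring
    rw [h5] at h3
    exact le_of_mul_le_mul_right h3 (by positivity)
  have h3 : Filter.Tendsto (fun m : ℕ => ((p : ℝ) + (k * w : ℝ) * ((p : ℝ)⁻¹) ^ m) ^ k)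
      Filter.atTop (nhds (((p : ℝ) + (k * w : ℝ) * 0) ^ k)) := by
    refine (Filter.Tendsto.const_add _ (Filter.Tendsto.const_mul _ ?_)).pow k
    refine tendsto_pow_atTop_nhds_zero_of_lt_one (by positivity) ?_
    exact inv_lt_one_of_one_lt₀ (by exact_mod_cast hp)
  have h4 := ge_of_tendsto h3 h2
  rw [mul_zero, add_zero] at h4
  have h5 : A ≤ p ^ k := by exact_mod_cast h4
  omega

theorem lt_of_enough {k s : ℕ} (hk : 1 ≤ k)
    (h : p ^ k < (p - 1) * (k.factorial * Nat.gcd (p - 1) k ^ k)) (hs : Enough p k s) :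
    k + 1 ≤ s := by
  by_contra hc
  refine not_enough k hk h ?_
  obtain ⟨d0, hd⟩ := hs
  exact ⟨d0, fun d hd1 f hf => (hd d hd1 f hf).mono (by omega)⟩

theorem cond_six (k : ℕ) (hk : 1 ≤ k) (hp2 : p < 2 * k) (h6 : 6 ≤ Nat.gcd (p - 1) k) :
    p ^ k < (p - 1) * (k.factorial * Nat.gcd (p - 1) k ^ k) := by
  have hp : 1 < p := (Fact.out : p.Prime).one_lt
  have h1 : k ^ k ≤ 3 ^ k * k.factorial := by
    have h2 := Real.pow_div_factorial_le_exp (k : ℝ) (Nat.cast_nonneg k) k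
    have h3 : Real.exp (k : ℝ) ≤ 3 ^ k := by
      have h4 : Real.exp (k : ℝ) = Real.exp 1 ^ k := by
        rw [← Real.exp_nat_mul, mul_one]
      rw [h4]
      exact pow_le_pow_left₀ (Real.exp_pos 1).le (by linarith [Real.exp_one_lt_d9]) k
    have h5 : ((k : ℝ) ^ k) ≤ 3 ^ k * (k.factorial : ℝ) := by
      rw [div_le_iff₀ (by positivity)] at h2
      exact le_trans h2 (mul_le_mul_of_nonneg_right h3 (by positivity))
    exact_mod_cast h5
  calc p ^ k < (2 * k) ^ k := Nat.pow_lt_pow_left hp2 (by omega)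
    _ = 2 ^ k * k ^ k := by rw [mul_pow]
    _ ≤ 2 ^ k * (3 ^ k * k.factorial) := Nat.mul_le_mul_left _ h1
    _ = k.factorial * 6 ^ k := by
        rw [← mul_assoc, ← mul_pow]
        ring
    _ ≤ k.factorial * Nat.gcd (p - 1) k ^ k :=
        Nat.mul_le_mul_left _ (Nat.pow_le_pow_left h6 k)
    _ ≤ (p - 1) * (k.factorial * Nat.gcd (p - 1) k ^ k) :=
        Nat.le_mul_of_pos_left _ (by omega)

theorem cond_succ (k : ℕ) (hk : 2 ≤ k) (h : p = k + 1) :
    p ^ k < (p - 1) * (k.factorial * Nat.gcd (p - 1) k ^ k) := by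
  subst h
  rw [Nat.add_sub_cancel, Nat.gcd_self]
  have hk0 : (0 : ℝ) < k := by exact_mod_cast (by omega : 0 < k)
  have h1 : ((k : ℝ) + 1) ^ k < 3 * (k : ℝ) ^ k := by
    have h2 : (k : ℝ) + 1 = (1 / k + 1) * k := by field_simp; ring
    rw [h2, mul_pow]
    refine mul_lt_mul_of_pos_right ?_ (by positivity)
    have h3 := Real.add_one_le_exp (1 / (k : ℝ))
    have h4 : (1 / (k : ℝ) + 1) ^ k ≤ Real.exp (1 / (k : ℝ)) ^ k :=
      pow_le_pow_left₀ (by positivity) h3 k
    have h5 : Real.exp (1 / (k : ℝ)) ^ k = Real.exp 1 := by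
      rw [← Real.exp_nat_mul]
      congr 1
      field_simp
    linarith [Real.exp_one_lt_d9]
  have h2 : (k + 1) ^ k < 3 * k ^ k := by exact_mod_cast h1
  have h3 : 3 ≤ k * k.factorial := by
    have : 2 ≤ k.factorial := le_trans hk (Nat.self_le_factorial k)
    nlinarith
  calc (k + 1) ^ k < 3 * k ^ k := h2
    _ ≤ (k * k.factorial) * k ^ k := Nat.mul_le_mul_right _ h3
    _ = k * (k.factorial * k ^ k) := by ring

end Pool.Agent.W192

namespace Pool.Agent.W192

open Polynomial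

variable {p : ℕ} [Fact p.Prime]

open Classical in
theorem ncard_Rp (k m : ℕ) :
    {f : (ZMod p)[X] | f.natDegree = k * m ∧ IsRep p k k f}.ncard = (Rp p k m).card := by
  rw [← Set.ncard_coe_finset]
  congr 1
  ext f
  simp only [Rp, Finset.coe_filter, mem_Dg]
  constructor
  · rintro ⟨h1, h2⟩
    exact ⟨h1.le, h1, h2⟩
  · rintro ⟨-, h1, h2⟩
    exact ⟨h1, h2⟩

theorem ncard_deg (n : ℕ) (hn : 1 ≤ n) :
    {f : (ZMod p)[X] | f.natDegree = n}.ncard = (p - 1) * p ^ n := by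
  classical
  rw [← card_deg n hn, ← Set.ncard_coe_finset]
  congr 1
  ext f
  simp only [Finset.coe_filter, mem_Dg]
  constructor
  · intro h1
    exact ⟨h1.le, h1⟩
  · rintro ⟨-, h1⟩
    exact h1

theorem density (k : ℕ) (hk : 1 ≤ k) (ε : ℝ) (hε : 0 < ε) :
    ∃ m0 : ℕ, ∀ m : ℕ, m0 ≤ m →
      ({f : (ZMod p)[X] | f.natDegree = k * m ∧ IsRep p k k f}.ncard : ℝ) ≤
        ((p : ℝ) ^ k / ((p - 1) * k.factorial * (Nat.gcd (p - 1) k) ^ k) + ε) *
          {f : (ZMod p)[X] | f.natDegree = k * m}.ncard := by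
  have hp : 1 < p := (Fact.out : p.Prime).one_lt
  set w := Nat.gcd (p - 1) k with hw
  have hw0 : 0 < w := Nat.gcd_pos_of_pos_right _ hk
  have hp0 : (0 : ℝ) < p := by exact_mod_cast (by omega : 0 < p)
  have hp1 : (0 : ℝ) < (p : ℝ) - 1 := by
    have : (1 : ℝ) < p := by exact_mod_cast hp
    linarith
  have hw1 : (0 : ℝ) < (w : ℝ) ^ k := by positivity
  have hkf : (0 : ℝ) < (k.factorial : ℝ) := by exact_mod_cast k.factorial_pos
  set D : ℝ := ((p : ℝ) - 1) * k.factorial * (w : ℝ) ^ k with hD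
  have hD0 : 0 < D := by positivity
  have h3 : Filter.Tendsto (fun m : ℕ => ((p : ℝ) + (k * w : ℝ) * ((p : ℝ)⁻¹) ^ m) ^ k)
      Filter.atTop (nhds (((p : ℝ) + (k * w : ℝ) * 0) ^ k)) := by
    refine (Filter.Tendsto.const_add _ (Filter.Tendsto.const_mul _ ?_)).pow k
    refine tendsto_pow_atTop_nhds_zero_of_lt_one (by positivity) ?_
    exact inv_lt_one_of_one_lt₀ (by exact_mod_cast hp)
  rw [mul_zero, add_zero] at h3
  have h4 : ∀ᶠ m : ℕ in Filter.atTop,
      ((p : ℝ) + (k * w : ℝ) * ((p : ℝ)⁻¹) ^ m) ^ k < (p : ℝ) ^ k + ε * D :=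
    h3.eventually_lt_const (by linarith [mul_pos hε hD0])
  obtain ⟨m1, hm1⟩ := Filter.eventually_atTop.1 h4
  refine ⟨max m1 1, fun m hm => ?_⟩
  have hm2 := hm1 m (le_trans (le_max_left _ _) hm)
  have hm3 : 1 ≤ m := le_trans (le_max_right _ _) hm
  rw [ncard_Rp, ncard_deg (k * m) (Nat.mul_pos hk hm3)]
  have h5 := count (p := p) k m
  rw [← hw] at h5
  have h6 : ((Rp p k m).card : ℝ) * (k.factorial * (w : ℝ) ^ k) ≤
      ((p : ℝ) ^ (m + 1) + k * w) ^ k := by exact_mod_cast h5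
  have h7 : ((p : ℝ) ^ (m + 1) + k * w) ^ k =
      ((p : ℝ) + (k * w : ℝ) * ((p : ℝ)⁻¹) ^ m) ^ k * (p : ℝ) ^ (k * m) := by
    rw [mul_comm k m, pow_mul, ← mul_pow]
    congr 1
    rw [add_mul, mul_assoc, ← mul_pow, inv_mul_cancel₀ hp0.ne', one_pow, mul_one, pow_succ]
    ring
  rw [h7] at h6
  have h8 : (0 : ℝ) < (p : ℝ) ^ (k * m) := by positivity
  have h9 : ((Rp p k m).card : ℝ) * D ≤
      ((p : ℝ) ^ k + ε * D) * ((p : ℝ) ^ (k * m)) * ((p : ℝ) - 1) := by
    calc ((Rp p k m).card : ℝ) * D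
        = ((Rp p k m).card : ℝ) * (k.factorial * (w : ℝ) ^ k) * ((p : ℝ) - 1) := by
          rw [hD]; ring
      _ ≤ ((p : ℝ) + (k * w : ℝ) * ((p : ℝ)⁻¹) ^ m) ^ k * (p : ℝ) ^ (k * m) * ((p : ℝ) - 1) :=
          mul_le_mul_of_nonneg_right h6 hp1.le
      _ ≤ _ := by
          refine mul_le_mul_of_nonneg_right ?_ hp1.le
          exact mul_le_mul_of_nonneg_right hm2.le h8.le
  have h10 : (((p - 1) * p ^ (k * m) : ℕ) : ℝ) = ((p : ℝ) - 1) * (p : ℝ) ^ (k * m) := by
    rw [Nat.cast_mul, Nat.cast_sub hp.le, Nat.cast_pow, Nat.cast_one]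
  rw [h10]
  have h11 : ((p : ℝ) ^ k / D + ε) * (((p : ℝ) - 1) * (p : ℝ) ^ (k * m)) =
      ((p : ℝ) ^ k + ε * D) * ((p : ℝ) ^ (k * m)) * ((p : ℝ) - 1) / D := by
    field_simp
  rw [h11, le_div_iff₀ hD0]
  exact h9

theorem ratio_six (k : ℕ) (hk : 1 ≤ k) (hp2 : p < 2 * k) (h6 : 6 ≤ Nat.gcd (p - 1) k) :
    (p : ℝ) ^ k / ((p - 1) * k.factorial * (Nat.gcd (p - 1) k) ^ k) ≤
      (Real.exp 1 / 3) ^ k / (p - 1) := by
  have hp : 1 < p := (Fact.out : p.Prime).one_lt
  have hp1 : (0 : ℝ) < (p : ℝ) - 1 := by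
    have : (1 : ℝ) < p := by exact_mod_cast hp
    linarith
  have hkf : (0 : ℝ) < (k.factorial : ℝ) := by exact_mod_cast k.factorial_pos
  have hw6 : (6 : ℝ) ≤ (Nat.gcd (p - 1) k : ℝ) := by exact_mod_cast h6
  have hw0 : (0 : ℝ) < (Nat.gcd (p - 1) k : ℝ) := by linarith
  have h2 := Real.pow_div_factorial_le_exp (k : ℝ) (Nat.cast_nonneg k) k
  have h4 : Real.exp (k : ℝ) = Real.exp 1 ^ k := by
    rw [← Real.exp_nat_mul, mul_one]
  rw [h4, div_le_iff₀ hkf] at h2
  have h5 : (p : ℝ) ^ k ≤ 2 ^ k * (k : ℝ) ^ k := by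
    rw [← mul_pow]
    exact pow_le_pow_left₀ (by positivity) (by exact_mod_cast hp2.le) k
  have h6' : (6 : ℝ) ^ k ≤ (Nat.gcd (p - 1) k : ℝ) ^ k := pow_le_pow_left₀ (by norm_num) hw6 k
  rw [div_le_div_iff₀ (by positivity) hp1, div_pow]
  have h7 : (p : ℝ) ^ k ≤ (Real.exp 1 ^ k / 3 ^ k) * (k.factorial * (Nat.gcd (p - 1) k) ^ k) := by
    calc (p : ℝ) ^ k ≤ 2 ^ k * (k : ℝ) ^ k := h5
      _ ≤ 2 ^ k * (Real.exp 1 ^ k * k.factorial) :=
          mul_le_mul_of_nonneg_left h2 (by positivity)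
      _ = (Real.exp 1 ^ k / 3 ^ k) * (k.factorial * 6 ^ k) := by
          have : (6 : ℝ) ^ k = 2 ^ k * 3 ^ k := by
            rw [← mul_pow]
            norm_num
          rw [this]
          field_simp
      _ ≤ _ := by
          refine mul_le_mul_of_nonneg_left ?_ (by positivity)
          exact mul_le_mul_of_nonneg_left h6' hkf.le
  calc (p : ℝ) ^ k * ((p : ℝ) - 1)
      ≤ (Real.exp 1 ^ k / 3 ^ k) * (k.factorial * (Nat.gcd (p - 1) k) ^ k) * ((p : ℝ) - 1) :=
        mul_le_mul_of_nonneg_right h7 hp1.le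
    _ = _ := by ring

end Pool.Agent.W192
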