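import Pool.Agent.Lib.MP_192f66_nt.Waring

set_option autoImplicit false

/-!
# Definitions used in the statements about Waring's problem for polynomials over `ZMod p`
-/

namespace Pool.Agent.W192

open Polynomial

/-- `f` is a sum of at most `s` `k`-th powers of polynomials `g` over `ZMod p` with
`k * deg g < deg f + k`, that is, `deg g` is at most `deg f / k` rounded up. -/
def IsRep (p k s : ℕ) (f : (ZMod p)[X]) : Prop :=
  ∃ r ≤ s, ∃ g : Fin r → (ZMod p)[X],
    f = ∑ i, g i ^ k ∧ ∀ i, k * (g i).natDegree < f.natDegree + k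

/-- `s` terms are enough for all polynomials of large degree. -/
def Enough (p k s : ℕ) : Prop :=
  ∃ d0 : ℕ, ∀ d : ℕ, d0 ≤ d → ∀ f : (ZMod p)[X], f.natDegree = d → IsRep p k s f

/-- The least positive number of terms which is enough for all polynomials of large degree. -/
noncomputable def Gfin (p k : ℕ) : ℕ := sInf {s : ℕ | 0 < s ∧ Enough p k s}

/-- The least `s` such that every residue class modulo `p` is a sum of at most `s` `k`-th
powers. -/
noncomputable def wmod (p k : ℕ) : ℕ :=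
  sInf {s : ℕ | ∀ x : ZMod p, ∃ r ≤ s, ∃ e : Fin r → ZMod p, x = ∑ i, e i ^ k}

theorem wmod_set_iff (p k s : ℕ) :
    (∀ x : ZMod p, ∃ r ≤ s, ∃ e : Fin r → ZMod p, x = ∑ i, e i ^ k) ↔ WaringMod p k s := by
  constructor
  · intro h x
    obtain ⟨r, hr, e, he⟩ := h x
    refine ⟨List.ofFn e, ?_, ?_⟩
    · rw [List.length_ofFn]
      exact hr
    · rw [List.map_ofFn, List.sum_ofFn, he]
      rfl
  · intro h x
    obtain ⟨L, hL1, hL2⟩ := h x
    refine ⟨L.length, hL1, fun i => L.get i, ?_⟩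
    rw [← hL2, ← List.sum_ofFn]
    congr 1
    conv_lhs => rw [← List.ofFn_get L, List.map_ofFn]
    rfl

theorem wmod_le (p k : ℕ) [Fact p.Prime] (hk : 1 ≤ k) : wmod p k ≤ Nat.gcd (p - 1) k :=
  Nat.sInf_le ((wmod_set_iff p k _).mpr (waringMod_gcd p k hk))

theorem waringMod_wmod (p k : ℕ) [Fact p.Prime] (hk : 1 ≤ k) : WaringMod p k (wmod p k) := by
  have h : (wmod p k) ∈ {s : ℕ | ∀ x : ZMod p, ∃ r ≤ s, ∃ e : Fin r → ZMod p, x = ∑ i, e i ^ k} :=
    Nat.sInf_mem ⟨_, (wmod_set_iff p k _).mpr (waringMod_gcd p k hk)⟩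
  exact (wmod_set_iff p k _).mp h

theorem WaringMod.pos {p k s : ℕ} [Fact p.Prime] (hW : WaringMod p k s) : 1 ≤ s := by
  rcases Nat.eq_zero_or_pos s with h | h
  · exfalso
    obtain ⟨L, hL1, hL2⟩ := hW 1
    have : L = [] := List.length_eq_zero_iff.mp (by omega)
    rw [this] at hL2
    simp at hL2
  · exact h

theorem PS.isRep {p k s : ℕ} [Fact p.Prime] (hk : 1 ≤ k) {f : (ZMod p)[X]}
    (h : PS k ((f.natDegree + k - 1) / k) s f) : IsRep p k s f := by
  obtain ⟨L, h1, h2, h3⟩ := h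
  refine ⟨L.length, h1, fun i => L.get i, ?_, ?_⟩
  · rw [← List.sum_ofFn, ← h3]
    congr 1
    conv_lhs => rw [← List.ofFn_get L, List.map_ofFn]
    rfl
  · intro i
    have h4 := h2 (L.get i) (List.get_mem L i)
    have h5 := Nat.mul_le_mul_left k h4
    have h6 := Nat.mul_div_le (f.natDegree + k - 1) k
    show k * (L.get i).natDegree < f.natDegree + k
    omega

theorem enough_of (p k S : ℕ) [Fact p.Prime] (hk : 1 ≤ k)
    (h : ∃ d0 : ℕ, ∀ D : ℕ, d0 ≤ D → ∀ f : (ZMod p)[X], f.natDegree ≤ k * D → PS k D S f) :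
    Enough p k S := by
  obtain ⟨d0, h⟩ := h
  refine ⟨k * d0, fun d hd f hf => PS.isRep hk (h _ ?_ f ?_)⟩
  · rw [Nat.le_div_iff_mul_le (by omega), hf, mul_comm]
    omega
  · have h1 := Nat.lt_mul_div_succ (f.natDegree + k - 1) (show 0 < k by omega)
    rw [Nat.mul_add, mul_one] at h1
    omega

theorem Gfin_le {p k S : ℕ} (hS : 0 < S) (h : Enough p k S) : Gfin p k ≤ S :=
  Nat.sInf_le ⟨hS, h⟩

end Pool.Agent.W192
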