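import Pool.Agent.Lib.MP_192f66_nt.Ident

set_option autoImplicit false

/-!
# The additive family of sums of `k`-th powers
-/

namespace Pool.Agent.W192

open Polynomial

/-- Every residue class modulo `p` is a sum of at most `s` `k`-th powers. -/
def WaringMod (p k s : ℕ) : Prop :=
  ∀ x : ZMod p, ∃ L : List (ZMod p), L.length ≤ s ∧ (L.map fun e => e ^ k).sum = x

section

variable (p : ℕ) [Fact p.Prime]

theorem PS.scalar {K : Type} [Field K] {k B s : ℕ} (L : List K) (hL : L.length ≤ s) (h : K[X])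
    (hB : h.natDegree ≤ B) : PS k B s (C ((L.map fun e => e ^ k).sum) * h ^ k) := by
  refine ⟨L.map fun e => C e * h, ?_, ?_, ?_⟩
  · rw [List.length_map]
    exact hL
  · intro g hg
    rw [List.mem_map] at hg
    obtain ⟨e, _, rfl⟩ := hg
    exact (natDegree_C_mul_le _ _).trans hB
  · clear hL
    induction L with
    | nil => simp
    | cons e L ih =>
      rw [List.map_cons, List.map_cons, List.sum_cons, ih, List.map_cons, List.sum_cons, C_add,
        add_mul, mul_pow, ← C_pow]

/-- Weighted sum of `(a p + b)`-th powers. -/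
noncomputable def Wf (a b : ℕ) (ε : ℕ → ZMod p) (u v : (ZMod p)[X]) : (ZMod p)[X] :=
  ∑ i ∈ Finset.range (a + b), C (ε i) * (u + C ((i + 1 : ℕ) : ZMod p) * v) ^ (a * p + b)

theorem PS_Wf (k s r a b : ℕ) (hW : WaringMod p k s) (hr : r * k = a * p + b) (ε : ℕ → ZMod p)
    (u v : (ZMod p)[X]) (B : ℕ) (hu : u.natDegree ≤ B) (hv : v.natDegree ≤ B) :
    PS k (r * B) ((a + b) * s) (Wf p a b ε u v) := by
  have h1 := PS.sum (k := k) (B := r * B) (c := s) (Finset.range (a + b))
    (fun i => C (ε i) * (u + C ((i + 1 : ℕ) : ZMod p) * v) ^ (a * p + b)) fun i _ => by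
      obtain ⟨L, hL1, hL2⟩ := hW (ε i)
      rw [← hL2, ← hr, pow_mul]
      refine PS.scalar L hL1 _ ?_
      refine natDegree_pow_le_of_le r ?_
      exact (natDegree_add_le _ _).trans (max_le hu ((natDegree_C_mul_le _ _).trans hv))
  rwa [Finset.card_range] at h1

end

end Pool.Agent.W192
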