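import Pool.Agent.Lib.MP_192f66_nt.Mach

set_option autoImplicit false

/-!
# Weighted sums of `(a p + b)`-th powers over `ZMod p` which are additive in one variable
-/

namespace Pool.Agent.W192

open Polynomial

section

variable (p : ℕ) [Fact p.Prime]

/-- Weights: a linear functional on polynomials of degree at most `m` which, up to the constant
term, gives the linear coefficient. -/
theorem exists_weights (m : ℕ) (hm : m < p) :
    ∃ ε : ℕ → ZMod p, ∀ l, 1 ≤ l → l ≤ m →
      ∑ i ∈ Finset.range m, ε i * ((i + 1 : ℕ) : ZMod p) ^ l = if l = 1 then 1 else 0 := by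
  classical
  set v : ℕ → ZMod p := fun i => ((i + 1 : ℕ) : ZMod p) with hv
  have hvne : ∀ i ∈ Finset.range m, v i ≠ 0 := by
    intro i hi h
    rw [Finset.mem_range] at hi
    have h1 : p ∣ i + 1 := (ZMod.natCast_eq_zero_iff _ _).mp h
    have := Nat.le_of_dvd (Nat.succ_pos i) h1
    omega
  have hinj : Set.InjOn v (Finset.range m : Set ℕ) := by
    intro i hi j hj hij
    rw [Finset.coe_range, Set.mem_Iio] at hi hj
    have h1 : ((i + 1 : ℕ) : ZMod p) = ((j + 1 : ℕ) : ZMod p) := hij
    rw [ZMod.natCast_eq_natCast_iff'] at h1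
    rw [Nat.mod_eq_of_lt (by omega), Nat.mod_eq_of_lt (by omega)] at h1
    omega
  refine ⟨fun i => (Lagrange.basis (Finset.range m) v i).eval 0 * (v i)⁻¹, ?_⟩
  intro l hl1 hlm
  obtain ⟨l', rfl⟩ : ∃ l', l = l' + 1 := ⟨l - 1, by omega⟩
  have h1 : ∑ i ∈ Finset.range m, (Lagrange.basis (Finset.range m) v i).eval 0 * (v i)⁻¹ *
      ((i + 1 : ℕ) : ZMod p) ^ (l' + 1) =
      ∑ i ∈ Finset.range m, (Lagrange.basis (Finset.range m) v i).eval 0 * (v i) ^ l' := by
    refine Finset.sum_congr rfl fun i hi => ?_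
    have h2 : ((i + 1 : ℕ) : ZMod p) = v i := rfl
    rw [h2, pow_succ]
    have h3 := hvne i hi
    field_simp
  rw [h1]
  have h4 := Lagrange.eq_interpolate (s := Finset.range m) (v := v) (f := (X ^ l' : (ZMod p)[X]))
    hinj (by
      rw [degree_X_pow, Finset.card_range]
      exact_mod_cast (by omega : l' < m))
  have h5 := congrArg (fun f : (ZMod p)[X] => f.eval 0) h4
  simp only [Lagrange.interpolate_apply, eval_finsetSum, eval_mul, eval_C, eval_pow, eval_X] at h5
  have h6 : ∑ i ∈ Finset.range m, (Lagrange.basis (Finset.range m) v i).eval 0 * (v i) ^ l' =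
      (0 : ZMod p) ^ l' := by
    rw [h5]
    exact Finset.sum_congr rfl fun i _ => mul_comm _ _
  rw [h6]
  by_cases hl' : l' = 0
  · rw [hl', pow_zero, if_pos rfl]
  · rw [zero_pow hl', if_neg (by omega)]

theorem pow_frob (α : ZMod p) (u v : (ZMod p)[X]) (a b : ℕ) :
    (u + C α * v) ^ (a * p + b) = (u ^ p + C α * v ^ p) ^ a * (u + C α * v) ^ b := by
  have h1 : (u + C α * v) ^ p = u ^ p + C α * v ^ p := by
    rw [add_pow_char, mul_pow, ← C_pow, ZMod.pow_card]
  rw [pow_add, mul_comm a p, pow_mul, h1]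

/-- The basic identity. -/
theorem ident (a b : ℕ) (ha : 1 ≤ a) (hb : 1 ≤ b) (ε : ℕ → ZMod p)
    (hε : ∀ l, 1 ≤ l → l ≤ a + b →
      ∑ i ∈ Finset.range (a + b), ε i * ((i + 1 : ℕ) : ZMod p) ^ l = if l = 1 then 1 else 0)
    (u v : (ZMod p)[X]) :
    ∑ i ∈ Finset.range (a + b), C (ε i) * (u + C ((i + 1 : ℕ) : ZMod p) * v) ^ (a * p + b) =
      C (∑ i ∈ Finset.range (a + b), ε i) * u ^ (a * p + b) +
        (C (b : ZMod p) * (u ^ (a * p + b - 1) * v) +
          C (a : ZMod p) * (u ^ (a * p + b - p) * v ^ p)) := by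
  set Q : (ZMod p)[X][X] := (C (u ^ p) + C (v ^ p) * X) ^ a * (C u + C v * X) ^ b with hQ
  have hdeg : Q.natDegree < a + b + 1 := by
    have h1 : ∀ x y : (ZMod p)[X], (C x + C y * X : (ZMod p)[X][X]).natDegree ≤ 1 := by
      intro x y
      refine (natDegree_add_le _ _).trans (max_le ?_ ?_)
      · rw [natDegree_C]
        exact Nat.zero_le _
      · exact (natDegree_C_mul_le _ _).trans natDegree_X_le
    have h2 := natDegree_pow_le_of_le a (h1 (u ^ p) (v ^ p))
    have h3 := natDegree_pow_le_of_le b (h1 u v)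
    have h4 := natDegree_mul_le_of_le h2 h3
    rw [mul_one, mul_one] at h4
    exact Nat.lt_succ_of_le h4
  have heval : ∀ α : ZMod p, Q.eval (C α) = (u + C α * v) ^ (a * p + b) := by
    intro α
    rw [pow_frob, hQ]
    simp only [eval_mul, eval_pow, eval_add, eval_C, eval_X]
    ring
  have hc0 : Q.coeff 0 = u ^ (a * p + b) := by
    rw [coeff_zero_eq_eval_zero, hQ]
    simp only [eval_mul, eval_pow, eval_add, eval_C, eval_X, mul_zero, add_zero]
    rw [← pow_mul, ← pow_add, mul_comm p a]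
  have hc1 : Q.coeff 1 = C (b : ZMod p) * (u ^ (a * p + b - 1) * v) +
      C (a : ZMod p) * (u ^ (a * p + b - p) * v ^ p) := by
    have h1 := coeff_derivative Q 0
    rw [zero_add, Nat.cast_zero, zero_add, mul_one] at h1
    rw [← h1, coeff_zero_eq_eval_zero, hQ]
    obtain ⟨a', rfl⟩ : ∃ a', a = a' + 1 := ⟨a - 1, by omega⟩
    obtain ⟨b', rfl⟩ : ∃ b', b = b' + 1 := ⟨b - 1, by omega⟩
    have h2 : (a' + 1) * p + (b' + 1) - 1 = (a' + 1) * p + b' := by omega
    have h3 : (a' + 1) * p + (b' + 1) - p = a' * p + (b' + 1) := by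
      have : (a' + 1) * p = a' * p + p := by ring
      omega
    rw [h2, h3]
    simp only [derivative_mul, derivative_pow, derivative_C, derivative_X, zero_add,
      Nat.add_sub_cancel, eval_add, eval_mul, eval_pow, eval_C, eval_X, mul_zero, add_zero,
      mul_one, zero_mul, eval_natCast, Nat.cast_add, Nat.cast_one, map_add, map_one,
      map_natCast, eval_one]
    ring
  have hstep : ∀ i, C (ε i) * (u + C ((i + 1 : ℕ) : ZMod p) * v) ^ (a * p + b) =
      ∑ l ∈ Finset.range (a + b + 1), Q.coeff l * C (ε i * ((i + 1 : ℕ) : ZMod p) ^ l) := by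
    intro i
    rw [← heval, eval_eq_sum_range' hdeg, Finset.mul_sum]
    refine Finset.sum_congr rfl fun l _ => ?_
    rw [C_mul, C_pow]
    ring
  simp only [hstep]
  rw [Finset.sum_comm]
  have hcol : ∀ l ∈ Finset.range (a + b + 1),
      ∑ i ∈ Finset.range (a + b), Q.coeff l * C (ε i * ((i + 1 : ℕ) : ZMod p) ^ l) =
        Q.coeff l * (if l = 0 then C (∑ i ∈ Finset.range (a + b), ε i) else
          if l = 1 then 1 else 0) := by
    intro l hl
    rw [Finset.mem_range] at hl
    rw [← Finset.mul_sum, ← map_sum]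
    congr 1
    split_ifs with h1 h2
    · rw [h1]
      simp
    · rw [hε l (by omega) (by omega), if_pos h2, C_1]
    · rw [hε l (by omega) (by omega), if_neg h2, C_0]
  rw [Finset.sum_congr rfl hcol]
  obtain ⟨m, hm⟩ : ∃ m, a + b + 1 = m + 1 + 1 := ⟨a + b - 1, by omega⟩
  rw [hm, Finset.sum_range_succ', Finset.sum_range_succ']
  have hz : ∑ l ∈ Finset.range m, Q.coeff (l + 1 + 1) * (if l + 1 + 1 = 0 then
      C (∑ i ∈ Finset.range (a + b), ε i) else if l + 1 + 1 = 1 then 1 else 0) = 0 := by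
    refine Finset.sum_eq_zero fun l _ => ?_
    rw [if_neg (by omega), if_neg (by omega), mul_zero]
  rw [hz, zero_add, zero_add, if_neg one_ne_zero, if_pos rfl, if_pos rfl, hc0, hc1]
  ring

end

end Pool.Agent.W192
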