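import Pool.Agent.Lib.MP_192f66_nt.Waring

set_option autoImplicit false

/-!
# The local problem
-/

namespace Pool.Agent.W192

open Polynomial

section

variable (p : ℕ) [Fact p.Prime]

/-- The local property of the modulus `Q`. -/
def Lc (k s a b : ℕ) (Q : (ZMod p)[X]) : Prop :=
  ∀ R : (ZMod p)[X], ∃ (g : Fin s → (ZMod p)[X]) (v : (ZMod p)[X]),
    Q ∣ R - (∑ i, g i ^ k + (C (b : ZMod p) * v + C (a : ZMod p) * v ^ p))

theorem fin_of_list {A : Type} [CommSemiring A] (k : ℕ) (hk : 1 ≤ k) :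
    ∀ (s : ℕ) (L : List A), L.length ≤ s →
      ∃ e : Fin s → A, ∑ i, e i ^ k = (L.map fun x => x ^ k).sum := by
  intro s
  induction s with
  | zero =>
    intro L hL
    have : L = [] := List.length_eq_zero_iff.mp (Nat.le_zero.mp hL)
    subst this
    exact ⟨fun _ => 0, by simp⟩
  | succ s ih =>
    intro L hL
    cases L with
    | nil =>
      refine ⟨fun _ => 0, ?_⟩
      rw [List.map_nil, List.sum_nil]
      exact Finset.sum_eq_zero fun _ _ => zero_pow (by omega)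
    | cons x L =>
      rw [List.length_cons] at hL
      obtain ⟨e, he⟩ := ih L (by omega)
      refine ⟨Fin.cons x e, ?_⟩
      rw [Fin.sum_univ_succ, List.map_cons, List.sum_cons, ← he]
      simp

theorem Lc.of_isUnit (k s a b : ℕ) {Q : (ZMod p)[X]} (hQ : IsUnit Q) : Lc p k s a b Q :=
  fun _ => ⟨fun _ => 0, 0, hQ.dvd⟩

theorem Lc.pow (k s a b : ℕ) (hb : (b : ZMod p) ≠ 0) {P : (ZMod p)[X]} (h : Lc p k s a b P) :
    ∀ i, Lc p k s a b (P ^ i) := by
  intro i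
  induction i with
  | zero =>
    rw [pow_zero]
    exact Lc.of_isUnit p k s a b isUnit_one
  | succ i ih =>
    by_cases hi : i = 0
    · rw [hi, zero_add, pow_one]
      exact h
    · intro R
      obtain ⟨g, v, S, hS⟩ := ih R
      refine ⟨g, v + P ^ i * (C ((b : ZMod p)⁻¹) * S), ?_⟩
      have h1 : (v + P ^ i * (C ((b : ZMod p)⁻¹) * S)) ^ p =
          v ^ p + P ^ (i * p) * (C ((b : ZMod p)⁻¹) * S) ^ p := by
        rw [add_pow_char, mul_pow, ← pow_mul]
      have h2 : (C (b : ZMod p) * C ((b : ZMod p)⁻¹) : (ZMod p)[X]) = 1 := by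
        rw [← C_mul, mul_inv_cancel₀ hb, C_1]
      have h3 : R - (∑ i, g i ^ k + (C (b : ZMod p) * (v + P ^ i * (C ((b : ZMod p)⁻¹) * S)) +
          C (a : ZMod p) * (v + P ^ i * (C ((b : ZMod p)⁻¹) * S)) ^ p)) =
          -(C (a : ZMod p) * (C ((b : ZMod p)⁻¹) * S) ^ p) * P ^ (i * p) := by
        rw [h1]
        linear_combination hS - P ^ i * S * h2
      rw [h3]
      refine Dvd.dvd.mul_left (pow_dvd_pow P ?_) _
      have hp2 : 2 ≤ p := (Fact.out : p.Prime).two_le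
      have : i * 2 ≤ i * p := Nat.mul_le_mul_left i hp2
      omega

theorem dvd_congr (k s a b : ℕ) {Q R : (ZMod p)[X]} {g g' : Fin s → (ZMod p)[X]}
    {v v' : (ZMod p)[X]} (hg : ∀ i, Q ∣ g' i - g i) (hv : Q ∣ v' - v)
    (h : Q ∣ R - (∑ i, g i ^ k + (C (b : ZMod p) * v + C (a : ZMod p) * v ^ p))) :
    Q ∣ R - (∑ i, g' i ^ k + (C (b : ZMod p) * v' + C (a : ZMod p) * v' ^ p)) := by
  have hg2 : ∀ i, AdjoinRoot.mk Q (g' i) = AdjoinRoot.mk Q (g i) := fun i =>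
    AdjoinRoot.mk_eq_mk.mpr (hg i)
  have hv2 : AdjoinRoot.mk Q v' = AdjoinRoot.mk Q v := AdjoinRoot.mk_eq_mk.mpr hv
  rw [← AdjoinRoot.mk_eq_mk] at h ⊢
  rw [h]
  simp only [map_add, map_mul, map_pow, map_sum, hg2, hv2]

theorem Lc.mul (k s a b : ℕ) {Q Q' : (ZMod p)[X]} (hQ : IsCoprime Q Q')
    (h : Lc p k s a b Q) (h' : Lc p k s a b Q') : Lc p k s a b (Q * Q') := by
  intro R
  obtain ⟨g, v, hgv⟩ := h R
  obtain ⟨g', v', hgv'⟩ := h' R
  obtain ⟨x, y, hxy⟩ := id hQ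
  have c1 : ∀ f f' : (ZMod p)[X], Q ∣ (f * (y * Q') + f' * (x * Q)) - f := by
    intro f f'
    refine ⟨(f' - f) * x, ?_⟩
    linear_combination f * hxy
  have c2 : ∀ f f' : (ZMod p)[X], Q' ∣ (f * (y * Q') + f' * (x * Q)) - f' := by
    intro f f'
    refine ⟨(f - f') * y, ?_⟩
    linear_combination f' * hxy
  refine ⟨fun i => g i * (y * Q') + g' i * (x * Q), v * (y * Q') + v' * (x * Q), ?_⟩
  exact hQ.mul_dvd (dvd_congr p k s a b (fun i => c1 _ _) (c1 _ _) hgv)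
    (dvd_congr p k s a b (fun i => c2 _ _) (c2 _ _) hgv')

end

end Pool.Agent.W192
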