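import Pool.Agent.Lib.MP_192f66_nt.Loc

set_option autoImplicit false

/-!
# The local problem modulo an irreducible polynomial
-/

namespace Pool.Agent.W192

open Polynomial

section

variable (p : ℕ) [Fact p.Prime]

/-- In a finite field of characteristic `p`, every element is of the form
`i G ^ k + b v + a v ^ p` with `i` in the prime field. -/
theorem field_case (κ : Type) [Field κ] [Algebra (ZMod p) κ] [Finite κ] (k a b : ℕ)
    (hk1 : 1 ≤ k) (hkp : k < p) (hb : (b : ZMod p) ≠ 0) :
    ∃ G : κ, ∀ x : κ, ∃ (i : ZMod p) (v : κ),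
      x = algebraMap (ZMod p) κ i * G ^ k + (algebraMap (ZMod p) κ b * v +
        algebraMap (ZMod p) κ a * v ^ p) := by
  classical
  have hp : p.Prime := Fact.out
  have : CharP κ p := charP_of_injective_algebraMap (algebraMap (ZMod p) κ).injective p
  have : Fintype κ := Fintype.ofFinite κ
  have : ExpChar κ p := ExpChar.prime hp
  set β : κ := algebraMap (ZMod p) κ b with hβ
  set α : κ := algebraMap (ZMod p) κ a with hα
  have hβ0 : β ≠ 0 := by
    rw [hβ]
    exact (map_ne_zero (algebraMap (ZMod p) κ)).mpr hb
  let L : κ →+ κ :=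
    { toFun := fun v => β * v + α * v ^ p
      map_zero' := by rw [mul_zero, zero_pow hp.ne_zero, mul_zero, add_zero]
      map_add' := fun x y => by rw [add_pow_char]; ring }
  have hLdef : ∀ v, L v = β * v + α * v ^ p := fun _ => rfl
  have hLsmul : ∀ (i : ZMod p) (v : κ), L (algebraMap (ZMod p) κ i * v) =
      algebraMap (ZMod p) κ i * L v := by
    intro i v
    rw [hLdef, hLdef, mul_pow, ← map_pow, ZMod.pow_card]
    ring
  -- the kernel has at most `p` elements
  have hker : Nat.card L.ker ≤ p := by
    set q : κ[X] := C α * X ^ p + C β * X with hq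
    have hq1 : q.coeff 1 = β := by
      rw [hq, coeff_add, coeff_C_mul_X_pow, coeff_C_mul_X, if_neg hp.one_lt.ne, if_pos rfl,
        zero_add]
    have hq0 : q ≠ 0 := by
      intro h
      rw [h, coeff_zero] at hq1
      exact hβ0 hq1.symm
    have hqdeg : q.natDegree ≤ p := by
      rw [hq]
      refine (natDegree_add_le _ _).trans (max_le (natDegree_C_mul_X_pow_le _ _) ?_)
      refine ((natDegree_C_mul_le _ _).trans natDegree_X_le).trans hp.one_lt.le
    have hsub : (L.ker : Set κ) ⊆ (q.roots.toFinset : Set κ) := by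
      intro v hv
      have hv2 : L v = 0 := hv
      rw [Finset.mem_coe, Multiset.mem_toFinset, mem_roots hq0, IsRoot.def, hq]
      simp only [eval_add, eval_mul, eval_C, eval_pow, eval_X]
      rw [hLdef] at hv2
      rw [add_comm]
      exact hv2
    have h1 : Nat.card L.ker ≤ q.roots.toFinset.card := by
      have h2 := Nat.card_mono (Finset.finite_toSet q.roots.toFinset) hsub
      rwa [Nat.card_coe_set_eq, Nat.card_coe_set_eq, Set.ncard_coe_finset] at h2
    exact h1.trans ((Multiset.toFinset_card_le _).trans ((card_roots' q).trans hqdeg))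
  -- counting
  have hcard1 : Nat.card L.ker * Nat.card L.range = Nat.card κ := by
    rw [← AddSubgroup.index_ker, AddSubgroup.card_mul_index]
  have hcard2 : Nat.card L.range * L.range.index = Nat.card κ := AddSubgroup.card_mul_index _
  have hrpos : 0 < Nat.card L.range := Nat.card_pos
  have hindex : L.range.index = Nat.card L.ker := by
    have : Nat.card L.range * L.range.index = Nat.card L.range * Nat.card L.ker := by
      rw [hcard2, ← hcard1, mul_comm]
    exact Nat.eq_of_mul_eq_mul_left hrpos this
  have hcl : ∀ (i : ZMod p) (z : κ), z ∈ L.range → algebraMap (ZMod p) κ i * z ∈ L.range := by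
    rintro i z ⟨v, rfl⟩
    exact ⟨algebraMap (ZMod p) κ i * v, hLsmul i v⟩
  -- multiples of an element outside the range
  have hinj : ∀ z : κ, z ∉ L.range →
      Function.Injective fun i : ZMod p =>
        (QuotientAddGroup.mk (algebraMap (ZMod p) κ i * z) : κ ⧸ L.range) := by
    intro z hz i j hij
    by_contra hne
    dsimp only at hij
    rw [QuotientAddGroup.eq] at hij
    have h1 : j - i ≠ 0 := sub_ne_zero.mpr (Ne.symm hne)
    have h2 := hcl (j - i)⁻¹ _ hij
    apply hz
    convert h2 using 1
    have h3 : algebraMap (ZMod p) κ (j - i)⁻¹ * (algebraMap (ZMod p) κ (j - i)) = 1 := by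
      rw [← map_mul, inv_mul_cancel₀ h1, map_one]
    rw [map_sub] at h3
    linear_combination (-z) * h3
  by_cases htop : L.range = ⊤
  · refine ⟨0, fun x => ?_⟩
    have hx : x ∈ L.range := by
      rw [htop]
      exact AddSubgroup.mem_top x
    obtain ⟨v, hv⟩ := hx
    refine ⟨0, v, ?_⟩
    rw [map_zero, zero_mul, zero_add, ← hv, hLdef]
  · have : Finite (κ ⧸ L.range) := Quotient.finite _
    have : Fintype (κ ⧸ L.range) := Fintype.ofFinite _
    have hcardq : Fintype.card (κ ⧸ L.range) ≤ p := by
      rw [← Nat.card_eq_fintype_card]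
      exact hindex.le.trans hker
    obtain ⟨z0, hz0⟩ : ∃ z0 : κ, z0 ∉ L.range := by
      by_contra hcon
      push Not at hcon
      exact htop (by
        rw [eq_top_iff]
        intro x _
        exact hcon x)
    have hge : p ≤ Fintype.card (κ ⧸ L.range) := by
      have := Fintype.card_le_of_injective _ (hinj z0 hz0)
      rwa [ZMod.card] at this
    have hidx : L.range.index = p := by
      have : L.range.index = Fintype.card (κ ⧸ L.range) := by
        rw [← Nat.card_eq_fintype_card]
        rfl
      omega
    obtain ⟨G, hG⟩ : ∃ G : κ, G ^ k ∉ L.range := by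
      by_contra hcon
      push Not at hcon
      have h1 : (Finset.univ : Finset κ).card ≤ k * ((Finset.univ : Finset κ).image
          fun x => x ^ k).card := by
        refine Finset.card_le_mul_card_image _ k ?_
        intro y _
        have h2 : (Finset.univ.filter fun x : κ => x ^ k = y) ⊆ (nthRoots k y).toFinset := by
          intro x hx
          rw [Finset.mem_filter] at hx
          rw [Multiset.mem_toFinset, mem_nthRoots (by omega)]
          exact hx.2
        exact (Finset.card_le_card h2).trans
          ((Multiset.toFinset_card_le _).trans (card_nthRoots k y))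
      have h3 : ((Finset.univ : Finset κ).image fun x => x ^ k).card ≤ Nat.card L.range := by
        have h4 : (((Finset.univ : Finset κ).image fun x => x ^ k : Finset κ) : Set κ) ⊆
            (L.range : Set κ) := by
          intro y hy
          rw [Finset.mem_coe, Finset.mem_image] at hy
          obtain ⟨x, _, rfl⟩ := hy
          exact hcon x
        have h5 := Nat.card_mono (Set.toFinite (L.range : Set κ)) h4
        rw [Nat.card_coe_set_eq, Set.ncard_coe_finset] at h5
        exact h5
      have h6 : Nat.card κ ≤ k * Nat.card L.range := by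
        rw [Nat.card_eq_fintype_card, ← Finset.card_univ]
        exact h1.trans (Nat.mul_le_mul_left k h3)
      rw [← hcard2, hidx, mul_comm] at h6
      have h7 := Nat.le_of_mul_le_mul_right h6 hrpos
      omega
    refine ⟨G, fun x => ?_⟩
    have hbij : Function.Bijective fun i : ZMod p =>
        (QuotientAddGroup.mk (algebraMap (ZMod p) κ i * G ^ k) : κ ⧸ L.range) := by
      rw [Fintype.bijective_iff_injective_and_card]
      refine ⟨hinj _ hG, ?_⟩
      rw [ZMod.card]
      omega
    obtain ⟨i, hi⟩ := hbij.2 (QuotientAddGroup.mk x)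
    dsimp only at hi
    rw [QuotientAddGroup.eq] at hi
    obtain ⟨v, hv⟩ := hi
    refine ⟨i, v, ?_⟩
    rw [← hLdef, hv]
    ring

theorem Lc.of_irreducible (k s a b : ℕ) (hk1 : 1 ≤ k) (hkp : k < p) (hb : (b : ZMod p) ≠ 0)
    (hW : WaringMod p k s) {P : (ZMod p)[X]} (hP : Irreducible P) : Lc p k s a b P := by
  have : Fact (Irreducible P) := ⟨hP⟩
  have : Module.Finite (ZMod p) (AdjoinRoot P) := (AdjoinRoot.powerBasis hP.ne_zero).finite
  have : Finite (AdjoinRoot P) := Module.finite_of_finite (ZMod p)
  obtain ⟨G, hG⟩ := field_case p (AdjoinRoot P) k a b hk1 hkp hb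
  intro R
  obtain ⟨i, v, hx⟩ := hG (AdjoinRoot.mk P R)
  obtain ⟨L, hL1, hL2⟩ := hW i
  obtain ⟨e, he⟩ := fin_of_list k hk1 s L hL1
  obtain ⟨g0, rfl⟩ := AdjoinRoot.mk_surjective G
  obtain ⟨v0, rfl⟩ := AdjoinRoot.mk_surjective v
  refine ⟨fun j => C (e j) * g0, v0, ?_⟩
  rw [← AdjoinRoot.mk_eq_mk, hx, ← hL2, ← he]
  have hC : ∀ x : ZMod p, algebraMap (ZMod p) (AdjoinRoot P) x = AdjoinRoot.mk P (C x) := by
    intro x
    rw [AdjoinRoot.mk_C]
    rfl
  simp only [hC, map_add, map_mul, map_pow, map_sum, mul_pow]
  rw [← Finset.sum_mul]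

/-- The local problem is solvable for every non-zero modulus. -/
theorem Lc.all (k s a b : ℕ) (hk1 : 1 ≤ k) (hkp : k < p) (hb : (b : ZMod p) ≠ 0)
    (hW : WaringMod p k s) (Q : (ZMod p)[X]) (hQ : Q ≠ 0) : Lc p k s a b Q := by
  revert hQ
  induction Q using UniqueFactorizationMonoid.induction_on_coprime with
  | h0 => exact fun h => absurd rfl h
  | h1 hu => exact fun _ => Lc.of_isUnit p k s a b hu
  | hpr i hprime =>
    exact fun _ => Lc.pow p k s a b hb
      (Lc.of_irreducible p k s a b hk1 hkp hb hW hprime.irreducible) i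
  | hcp hrel hx hy =>
    intro hne
    exact Lc.mul p k s a b hrel.isCoprime (hx (left_ne_zero_of_mul hne))
      (hy (right_ne_zero_of_mul hne))

end

end Pool.Agent.W192
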