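import Mathlib

set_option autoImplicit false

/-!
# Waring's problem for polynomials: diminishing ranges
-/

namespace Pool.Agent.W192

open Polynomial

section

variable {K : Type} [Field K]

/-- `f` is a sum of at most `s` `k`-th powers of polynomials of degree at most `B`. -/
def PS (k B s : ℕ) (f : K[X]) : Prop :=
  ∃ L : List K[X], L.length ≤ s ∧ (∀ g ∈ L, g.natDegree ≤ B) ∧ (L.map fun g => g ^ k).sum = f

theorem PS.zero {k B : ℕ} : PS k B 0 (0 : K[X]) :=
  ⟨[], le_rfl, fun _ h => absurd h List.not_mem_nil, by simp⟩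

theorem PS.add {k B s t : ℕ} {f g : K[X]} (hf : PS k B s f) (hg : PS k B t g) :
    PS k B (s + t) (f + g) := by
  obtain ⟨L, h1, h2, h3⟩ := hf
  obtain ⟨L', h1', h2', h3'⟩ := hg
  refine ⟨L ++ L', ?_, ?_, ?_⟩
  · rw [List.length_append]
    omega
  · intro a ha
    rw [List.mem_append] at ha
    rcases ha with ha | ha
    · exact h2 a ha
    · exact h2' a ha
  · rw [List.map_append, List.sum_append, h3, h3']

theorem PS.mono {k B s B' s' : ℕ} {f : K[X]} (h : PS k B s f) (hB : B ≤ B') (hs : s ≤ s') :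
    PS k B' s' f := by
  obtain ⟨L, h1, h2, h3⟩ := h
  exact ⟨L, h1.trans hs, fun g hg => (h2 g hg).trans hB, h3⟩

theorem PS.single {k B : ℕ} (g : K[X]) (hg : g.natDegree ≤ B) : PS k B 1 (g ^ k) :=
  ⟨[g], le_rfl, fun a ha => by rw [List.mem_singleton.mp ha]; exact hg, by simp⟩

theorem PS.sum {k B c : ℕ} {ι : Type} (S : Finset ι) (F : ι → K[X])
    (h : ∀ i ∈ S, PS k B c (F i)) : PS k B (S.card * c) (∑ i ∈ S, F i) := by
  classical
  induction S using Finset.induction_on with
  | empty =>
    rw [Finset.card_empty, zero_mul, Finset.sum_empty]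
    exact PS.zero
  | insert a S ha ih =>
    rw [Finset.card_insert_of_notMem ha, Finset.sum_insert ha, add_comm, add_mul, one_mul]
    rw [add_comm (F a)]
    have h1 := (ih fun i hi => h i (Finset.mem_insert_of_mem hi)).add
      (h a (Finset.mem_insert_self _ _))
    rwa [add_comm (S.card * c) c] at h1

theorem PS.natDegree_le {k B s : ℕ} {f : K[X]} (h : PS k B s f) : f.natDegree ≤ k * B := by
  obtain ⟨L, h1, h2, rfl⟩ := h
  clear h1
  induction L with
  | nil => simp
  | cons a L ih =>
    rw [List.map_cons, List.sum_cons]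
    refine (natDegree_add_le _ _).trans (max_le ?_ ?_)
    · exact natDegree_pow_le.trans (Nat.mul_le_mul_left k (h2 a List.mem_cons_self))
    · exact ih fun g hg => h2 g (List.mem_cons_of_mem _ hg)

/-! ### Diminishing ranges -/

theorem top_match (k : ℕ) (hk : (k : K) ≠ 0) (E : ℕ) : ∀ j ≤ E, ∀ f : K[X],
    f.coeff (k * E) = 1 → ∃ g : K[X], g.natDegree ≤ E ∧ g.coeff E = 1 ∧
      ∀ i ≤ j, (g ^ k).coeff (k * E - i) = f.coeff (k * E - i) := by
  have hk0 : k ≠ 0 := by
    rintro rfl
    exact hk (by simp)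
  have hkE : E ≤ k * E := Nat.le_mul_of_pos_left E (Nat.pos_of_ne_zero hk0)
  intro j
  induction j with
  | zero =>
    intro _ f hf
    refine ⟨X ^ E, natDegree_X_pow_le E, by simp, ?_⟩
    intro i hi
    have hi0 : i = 0 := by omega
    rw [hi0, Nat.sub_zero, hf, ← pow_mul, coeff_X_pow, if_pos (mul_comm _ _)]
  | succ j ih =>
    intro hj f hf
    obtain ⟨g, hg1, hg2, hg3⟩ := ih (by omega) f hf
    set e := E - (j + 1) with he
    set lam : K := (f.coeff (k * E - (j + 1)) - (g ^ k).coeff (k * E - (j + 1))) / k with hlam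
    have key : ∀ i ≤ j + 1, ((g + C lam * X ^ e) ^ k).coeff (k * E - i) =
        (g ^ k).coeff (k * E - i) + if i = j + 1 then k * lam else 0 := by
      intro i hi
      rw [add_pow, finsetSum_coeff]
      obtain ⟨k', rfl⟩ : ∃ k', k = k' + 1 := ⟨k - 1, by omega⟩
      rw [Finset.sum_range_succ, Finset.sum_range_succ]
      have hz : ∑ m ∈ Finset.range k', (g ^ m * (C lam * X ^ e) ^ (k' + 1 - m) *
          ((k' + 1).choose m : K[X])).coeff ((k' + 1) * E - i) = 0 := by
        refine Finset.sum_eq_zero fun m hm => ?_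
        rw [Finset.mem_range] at hm
        apply coeff_eq_zero_of_natDegree_lt
        have h1 : (g ^ m * (C lam * X ^ e) ^ (k' + 1 - m) *
            ((k' + 1).choose m : K[X])).natDegree ≤ m * E + (k' + 1 - m) * e := by
          refine natDegree_mul_le.trans ?_
          rw [natDegree_natCast, add_zero]
          refine natDegree_mul_le.trans (Nat.add_le_add ?_ ?_)
          · exact natDegree_pow_le.trans (Nat.mul_le_mul_left m hg1)
          · exact natDegree_pow_le.trans (Nat.mul_le_mul_left _ (natDegree_C_mul_X_pow_le _ _))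
        refine h1.trans_lt ?_
        obtain ⟨t, ht⟩ : ∃ t, k' + 1 - m = t + 2 := ⟨k' + 1 - m - 2, by omega⟩
        have hk2 : k' + 1 = m + (t + 2) := by omega
        rw [ht, hk2]
        have hE : E = e + (j + 1) := by omega
        rw [hE]
        have h2 : (m + (t + 2)) * (e + (j + 1)) =
            m * (e + (j + 1)) + (t + 2) * e + (t + 2) * (j + 1) := by ring
        rw [h2]
        have h3 : (t + 2) * (j + 1) = t * (j + 1) + (j + 1) + (j + 1) := by ring
        rw [h3]
        omega
      rw [hz, zero_add, Nat.choose_self, Nat.sub_self, pow_zero, mul_one, Nat.cast_one, mul_one]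
      have h4 : k' + 1 - k' = 1 := by omega
      rw [h4, pow_one, Nat.choose_succ_self_right, add_comm]
      congr 1
      have h5 : g ^ k' * (C lam * X ^ e) * ((k' + 1 : ℕ) : K[X]) =
          C (((k' + 1 : ℕ) : K) * lam) * g ^ k' * X ^ e := by
        rw [C_mul, ← C_eq_natCast]
        ring
      rw [h5]
      have h6 : (k' + 1) * E - i = (k' * E + (j + 1) - i) + e := by
        have : (k' + 1) * E = k' * E + E := by ring
        omega
      rw [h6, coeff_mul_X_pow, coeff_C_mul]
      split_ifs with h7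
      · rw [h7, Nat.add_sub_cancel, coeff_pow_of_natDegree_le hg1, hg2, one_pow, mul_one]
      · rw [coeff_eq_zero_of_natDegree_lt, mul_zero]
        refine (natDegree_pow_le.trans (Nat.mul_le_mul_left k' hg1)).trans_lt ?_
        omega
    refine ⟨g + C lam * X ^ e, ?_, ?_, ?_⟩
    · refine (natDegree_add_le _ _).trans (max_le hg1 ?_)
      exact (natDegree_C_mul_X_pow_le _ _).trans (Nat.sub_le _ _)
    · rw [coeff_add, hg2, coeff_C_mul_X_pow, if_neg (by omega), add_zero]
    · intro i hi
      rw [key i hi]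
      split_ifs with h7
      · rw [h7, hlam, mul_div_cancel₀ _ hk]
        ring
      · rw [add_zero]
        exact hg3 i (by omega)

theorem step (k : ℕ) (hk : (k : K) ≠ 0) (E E' : ℕ) (hE : E' < E) (hE2 : k * E ≤ k * E' + E)
    (f : K[X]) (hf : f.natDegree ≤ k * E) (hf1 : f.coeff (k * E) = 1) :
    ∃ g : K[X], g.natDegree ≤ E ∧ (f - g ^ k).natDegree ≤ k * E' ∧
      (f - g ^ k).coeff (k * E') = 1 := by
  have hk0 : k ≠ 0 := by
    rintro rfl
    exact hk (by simp)
  have hlt : k * E' < k * E := Nat.mul_lt_mul_of_pos_left hE (Nat.pos_of_ne_zero hk0)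
  obtain ⟨g, hg1, hg2, hg3⟩ := top_match k hk E (k * E - k * E') (by omega)
    (f - X ^ (k * E')) (by
      rw [coeff_sub, hf1, coeff_X_pow, if_neg (by omega), sub_zero])
  have hc : ∀ N, k * E' ≤ N → (f - g ^ k).coeff N = if N = k * E' then 1 else 0 := by
    intro N hN
    by_cases hN2 : N ≤ k * E
    · have h1 := hg3 (k * E - N) (by omega)
      have h2 : k * E - (k * E - N) = N := by omega
      rw [h2, coeff_sub, coeff_X_pow] at h1
      rw [coeff_sub, h1]
      ring
    · rw [if_neg (by omega), coeff_sub, coeff_eq_zero_of_natDegree_lt (by omega),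
        coeff_eq_zero_of_natDegree_lt, sub_zero]
      refine (natDegree_pow_le.trans (Nat.mul_le_mul_left k hg1)).trans_lt (by omega)
  refine ⟨g, hg1, ?_, ?_⟩
  · rw [natDegree_le_iff_coeff_eq_zero]
    intro N hN
    rw [hc N (by omega), if_neg (by omega)]
  · rw [hc _ le_rfl, if_pos rfl]

theorem iter (k : ℕ) (hk : (k : K) ≠ 0) : ∀ (J E : ℕ) (f : K[X]), f.natDegree ≤ k * E →
    f.coeff (k * E) = 1 → ∃ (R : K[X]) (E' : ℕ), PS k E J (f - R) ∧ R.natDegree ≤ k * E' ∧
      (E' : ℝ) ≤ k + (1 - 1 / (k : ℝ)) ^ J * max ((E : ℝ) - k) 0 := by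
  have hk0 : k ≠ 0 := by
    rintro rfl
    exact hk (by simp)
  have hkp : 0 < k := Nat.pos_of_ne_zero hk0
  have hkr : (1 : ℝ) ≤ k := by exact_mod_cast hkp
  have hθ : 0 ≤ 1 - 1 / (k : ℝ) := by
    rw [sub_nonneg, div_le_one (by linarith)]
    exact hkr
  intro J
  induction J with
  | zero =>
    intro E f hf _
    refine ⟨f, E, ?_, hf, ?_⟩
    · rw [sub_self]
      exact PS.zero
    · rw [pow_zero, one_mul]
      have := le_max_left ((E : ℝ) - k) 0
      linarith
  | succ J ih =>
    intro E f hf hf1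
    by_cases hEk : E < k
    · refine ⟨f, E, ?_, hf, ?_⟩
      · rw [sub_self]
        exact PS.zero.mono le_rfl (Nat.zero_le _)
      · have h1 : (E : ℝ) ≤ k := by exact_mod_cast hEk.le
        have h2 : 0 ≤ (1 - 1 / (k : ℝ)) ^ (J + 1) * max ((E : ℝ) - k) 0 :=
          mul_nonneg (pow_nonneg hθ _) (le_max_right _ _)
        linarith
    · rw [not_lt] at hEk
      have hdiv : 0 < E / k := Nat.div_pos hEk hkp
      have hdle : k * (E / k) ≤ E := Nat.mul_div_le E k
      have hdlt : E < k * (E / k) + k := by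
        have := Nat.lt_mul_div_succ E hkp
        rw [Nat.mul_add, mul_one] at this
        exact this
      have hle : E / k ≤ E := Nat.div_le_self E k
      obtain ⟨g, hg1, hg2, hg3⟩ := step k hk E (E - E / k) (by omega) (by
        rw [Nat.mul_sub]
        have : k * (E / k) ≤ k * E := Nat.mul_le_mul_left k hle
        omega) f hf hf1
      obtain ⟨R, E', hR1, hR2, hR3⟩ := ih (E - E / k) (f - g ^ k) hg2 hg3
      refine ⟨R, E', ?_, hR2, hR3.trans ?_⟩
      · have h1 : f - R = f - g ^ k - R + g ^ k := by ring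
        rw [h1]
        exact (hR1.mono (Nat.sub_le _ _) le_rfl).add (PS.single g hg1)
      · have h1 : ((E - E / k : ℕ) : ℝ) = (E : ℝ) - ((E / k : ℕ) : ℝ) := by
          rw [Nat.cast_sub hle]
        have h2 : (E : ℝ) < k * ((E / k : ℕ) : ℝ) + k := by exact_mod_cast hdlt
        have h3 : (E : ℝ) / k - 1 ≤ ((E / k : ℕ) : ℝ) := by
          rw [sub_le_iff_le_add, div_le_iff₀ (by linarith)]
          nlinarith
        have h4 : (E : ℝ) - ((E / k : ℕ) : ℝ) - k ≤ (1 - 1 / (k : ℝ)) * ((E : ℝ) - k) := by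
          have h5 : (1 - 1 / (k : ℝ)) * ((E : ℝ) - k) = (E : ℝ) - k - E / k + 1 := by
            field_simp
            ring
          rw [h5]
          linarith
        have h6 : (k : ℝ) ≤ E := by exact_mod_cast hEk
        have h7 : max ((E : ℝ) - k) 0 = (E : ℝ) - k := max_eq_left (by linarith)
        have h8 : max ((((E - E / k : ℕ) : ℝ)) - k) 0 ≤ (1 - 1 / (k : ℝ)) * ((E : ℝ) - k) := by
          rw [h1]
          exact max_le h4 (mul_nonneg hθ (by linarith))
        rw [h7, pow_succ, mul_assoc]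
        have h9 := mul_le_mul_of_nonneg_left h8 (pow_nonneg hθ J)
        linarith

/-! ### Constants -/

theorem PS.of_const {k B s : ℕ} (L : List K) (hL : L.length ≤ s) (D : ℕ) (hD : D ≤ B) :
    PS k B s (C ((L.map fun e => e ^ k).sum) * X ^ (k * D)) := by
  refine ⟨L.map fun e => C e * X ^ D, ?_, ?_, ?_⟩
  · rw [List.length_map]
    exact hL
  · intro g hg
    rw [List.mem_map] at hg
    obtain ⟨e, _, rfl⟩ := hg
    exact (natDegree_C_mul_X_pow_le _ _).trans hD
  · clear hL
    induction L with
    | nil => simp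
    | cons e L ih =>
      rw [List.map_cons, List.map_cons, List.sum_cons, ih, List.map_cons, List.sum_cons, C_add,
        add_mul, mul_pow, ← C_pow, ← pow_mul, mul_comm D k]

end

end Pool.Agent.W192
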