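import Pool.Agent.Lib.MP_192f66_nt.Defs

set_option autoImplicit false

/-!
# The machine with grouped families
-/

namespace Pool.Agent.W192

open Polynomial

section

variable (p : ℕ) [Fact p.Prime]

/-- The value of the additive family. -/
noncomputable def Fv (n : ℕ) (E β α : ZMod p) (u v : (ZMod p)[X]) : (ZMod p)[X] :=
  C E * u ^ n + (C β * (u ^ (n - 1) * v) + C α * (u ^ (n - p) * v ^ p))

/-- `P` is a sum of at most `m` values of the family, with arguments of degree at most `B`. -/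
def Fam (n : ℕ) (E β α : ZMod p) (m B : ℕ) (P : (ZMod p)[X]) : Prop :=
  ∃ L : List ((ZMod p)[X] × (ZMod p)[X]), L.length ≤ m ∧
    (∀ x ∈ L, x.1.natDegree ≤ B ∧ x.2.natDegree ≤ B) ∧
    (L.map fun x => Fv p n E β α x.1 x.2).sum = P

variable {p} {n : ℕ} {E β α : ZMod p}

theorem Fam.zero {B : ℕ} : Fam p n E β α 0 B 0 :=
  ⟨[], le_rfl, fun _ h => absurd h List.not_mem_nil, by simp⟩

theorem Fam.add {m m' B : ℕ} {P P' : (ZMod p)[X]} (h : Fam p n E β α m B P)
    (h' : Fam p n E β α m' B P') : Fam p n E β α (m + m') B (P + P') := by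
  obtain ⟨L, h1, h2, h3⟩ := h
  obtain ⟨L', h1', h2', h3'⟩ := h'
  refine ⟨L ++ L', ?_, ?_, ?_⟩
  · rw [List.length_append]
    omega
  · intro a ha
    rw [List.mem_append] at ha
    rcases ha with ha | ha
    · exact h2 a ha
    · exact h2' a ha
  · rw [List.map_append, List.sum_append, h3, h3']

theorem Fam.mono {m m' B B' : ℕ} {P : (ZMod p)[X]} (h : Fam p n E β α m B P) (hm : m ≤ m')
    (hB : B ≤ B') : Fam p n E β α m' B' P := by
  obtain ⟨L, h1, h2, h3⟩ := h
  exact ⟨L, h1.trans hm, fun x hx => ⟨(h2 x hx).1.trans hB, (h2 x hx).2.trans hB⟩, h3⟩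

theorem Fam.single {B : ℕ} (u v : (ZMod p)[X]) (hu : u.natDegree ≤ B) (hv : v.natDegree ≤ B) :
    Fam p n E β α 1 B (Fv p n E β α u v) :=
  ⟨[(u, v)], le_rfl, fun a ha => by rw [List.mem_singleton.mp ha]; exact ⟨hu, hv⟩, by simp⟩

theorem Fam.sum {B : ℕ} {ι : Type} (S : Finset ι) (u v : ι → (ZMod p)[X])
    (h : ∀ i ∈ S, (u i).natDegree ≤ B ∧ (v i).natDegree ≤ B) :
    Fam p n E β α S.card B (∑ i ∈ S, Fv p n E β α (u i) (v i)) := by
  classical
  induction S using Finset.induction_on with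
  | empty =>
    rw [Finset.card_empty, Finset.sum_empty]
    exact Fam.zero
  | insert a S ha ih =>
    rw [Finset.card_insert_of_notMem ha, Finset.sum_insert ha, add_comm (Fv p n E β α (u a) (v a))]
    have h1 := h a (Finset.mem_insert_self _ _)
    exact (ih fun i hi => h i (Finset.mem_insert_of_mem hi)).add (Fam.single _ _ h1.1 h1.2)

/-- The identity behind a group of families. -/
theorem group_ident (q x l : ℕ) (v : ℕ → (ZMod p)[X]) :
    Fv p n E β α (X ^ (p * x * q)) (-∑ i ∈ Finset.range l, X ^ ((n - p) * (i + 1) * q) * v i) +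
      ∑ i ∈ Finset.range l, Fv p n E β α (X ^ (p * (x + (i + 1)) * q)) (v i) =
    (C E * X ^ (p * x * q * n) +
        ∑ i ∈ Finset.range l, C E * X ^ (p * (x + (i + 1)) * q * n)) +
      C β * ∑ i ∈ Finset.range l, X ^ (x * (p * (n - 1) * q)) *
        (X ^ ((i + 1) * (p * (n - 1) * q)) - X ^ ((n - p) * (i + 1) * q)) * v i := by
  set V : (ZMod p)[X] := ∑ i ∈ Finset.range l, X ^ ((n - p) * (i + 1) * q) * v i with hV
  have hpow : V ^ p = ∑ i ∈ Finset.range l, X ^ ((n - p) * (i + 1) * q * p) * v i ^ p := by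
    rw [hV, sum_pow_char]
    refine Finset.sum_congr rfl fun i _ => ?_
    rw [mul_pow, ← pow_mul]
  have hneg : (-V) ^ p = -(V ^ p) := by
    rw [← neg_one_mul, mul_pow, neg_one_pow_expChar, neg_one_mul]
  simp only [Fv]
  rw [Finset.sum_add_distrib, Finset.sum_add_distrib, ← Finset.mul_sum, ← Finset.mul_sum,
    ← Finset.mul_sum]
  have h1 : ∑ i ∈ Finset.range l, ((X ^ (p * (x + (i + 1)) * q)) ^ (n - p) * v i ^ p :
      (ZMod p)[X]) = (X ^ (p * x * q)) ^ (n - p) * V ^ p := by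
    rw [hpow, Finset.mul_sum]
    refine Finset.sum_congr rfl fun i _ => ?_
    rw [← pow_mul, ← pow_mul, ← mul_assoc, ← pow_add]
    congr 2
    ring
  have h2 : ∑ i ∈ Finset.range l, ((X ^ (p * (x + (i + 1)) * q)) ^ (n - 1) * v i : (ZMod p)[X]) -
      (X ^ (p * x * q)) ^ (n - 1) * V = ∑ i ∈ Finset.range l, X ^ (x * (p * (n - 1) * q)) *
        (X ^ ((i + 1) * (p * (n - 1) * q)) - X ^ ((n - p) * (i + 1) * q)) * v i := by
    rw [hV, Finset.mul_sum, ← Finset.sum_sub_distrib]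
    refine Finset.sum_congr rfl fun i _ => ?_
    have e1 : ((X ^ (p * (x + (i + 1)) * q)) ^ (n - 1) : (ZMod p)[X]) =
        X ^ (x * (p * (n - 1) * q)) * X ^ ((i + 1) * (p * (n - 1) * q)) := by
      rw [← pow_mul, ← pow_add]
      congr 1
      ring
    have e2 : ((X ^ (p * x * q)) ^ (n - 1) : (ZMod p)[X]) = X ^ (x * (p * (n - 1) * q)) := by
      rw [← pow_mul]
      congr 1
      ring
    rw [e1, e2]
    ring
  have h3 : ∑ i ∈ Finset.range l, ((X ^ (p * (x + (i + 1)) * q)) ^ n : (ZMod p)[X]) =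
      ∑ i ∈ Finset.range l, X ^ (p * (x + (i + 1)) * q * n) :=
    Finset.sum_congr rfl fun i _ => (pow_mul _ _ _).symm
  have h4 : ((X ^ (p * x * q)) ^ n : (ZMod p)[X]) = X ^ (p * x * q * n) := (pow_mul _ _ _).symm
  have h5 : ∑ i ∈ Finset.range l, (C E * X ^ (p * (x + (i + 1)) * q * n) : (ZMod p)[X]) =
      C E * ∑ i ∈ Finset.range l, X ^ (p * (x + (i + 1)) * q * n) := by
    rw [Finset.mul_sum]
  rw [h5, h1, h3, h4, hneg, ← h2]
  ring

/-- Iterated division by monic polynomials. -/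
theorem topdown (N : ℕ) (x : ℕ) (P : ℕ → (ZMod p)[X]) : ∀ l : ℕ,
    (∀ i < l, (P i).Monic ∧ (P i).natDegree = (x + (i + 1)) * N) →
    ∀ G : (ZMod p)[X], G.natDegree < (x + l + 1) * N →
    ∃ v : ℕ → (ZMod p)[X], (∀ i < l, (v i).natDegree < N) ∧
      (G - ∑ i ∈ Finset.range l, P i * v i).natDegree < (x + 1) * N := by
  intro l
  induction l with
  | zero =>
    intro _ G hG
    refine ⟨fun _ => 0, fun i hi => absurd hi (Nat.not_lt_zero i), ?_⟩
    rw [Finset.sum_range_zero, sub_zero]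
    exact hG
  | succ l ih =>
    intro hP G hG
    obtain ⟨hm, hd⟩ := hP l (Nat.lt_succ_self l)
    have hN : 0 < N := by
      rcases Nat.eq_zero_or_pos N with h | h
      · rw [h, mul_zero] at hG
        exact absurd hG (Nat.not_lt_zero _)
      · exact h
    have hpos : 0 < (x + (l + 1)) * N := Nat.mul_pos (by omega) hN
    have hdeg : (G %ₘ P l).natDegree < (x + l + 1) * N := by
      have h1 := natDegree_modByMonic_lt G hm (by
        intro h
        rw [h, natDegree_one] at hd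
        omega)
      rw [hd] at h1
      exact h1
    have hquot : (G /ₘ P l).natDegree < N := by
      rw [natDegree_divByMonic G hm, hd]
      have h2 : (x + (l + 1) + 1) * N = (x + (l + 1)) * N + N := by ring
      omega
    obtain ⟨v, hv1, hv2⟩ := ih (fun i hi => hP i (by omega)) (G %ₘ P l) hdeg
    refine ⟨fun i => if i = l then G /ₘ P l else v i, ?_, ?_⟩
    · intro i hi
      dsimp only
      split_ifs with h
      · exact hquot
      · exact hv1 i (by omega)
    · rw [Finset.sum_range_succ]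
      dsimp only
      rw [if_pos rfl]
      have h3 : ∑ i ∈ Finset.range l, P i * (if i = l then G /ₘ P l else v i) =
          ∑ i ∈ Finset.range l, P i * v i := by
        refine Finset.sum_congr rfl fun i hi => ?_
        rw [if_neg (Finset.mem_range.mp hi).ne]
      rw [h3]
      have h4 := modByMonic_add_div G (P l)
      have h5 : G - (∑ i ∈ Finset.range l, P i * v i + P l * (G /ₘ P l)) =
          G %ₘ P l - ∑ i ∈ Finset.range l, P i * v i := by
        linear_combination -h4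
      rw [h5]
      exact hv2

theorem monic_diff {a b : ℕ} (h : b < a) : ((X ^ a - X ^ b : (ZMod p)[X])).Monic ∧
    ((X ^ a - X ^ b : (ZMod p)[X])).natDegree = a := by
  constructor
  · refine (monic_X_pow a).sub_of_left ?_
    rw [degree_X_pow, degree_X_pow]
    exact_mod_cast h
  · rw [natDegree_sub_eq_left_of_natDegree_lt, natDegree_X_pow]
    rw [natDegree_X_pow, natDegree_X_pow]
    exact h

theorem shift_lt (hn : p < n) {i q : ℕ} (hi : 1 ≤ i) (hq : 1 ≤ q) :
    (n - p) * i * q < i * (p * (n - 1) * q) := by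
  have hp2 : 2 ≤ p := (Fact.out : p.Prime).two_le
  have h1 : n - p < p * (n - 1) := by
    have : 1 * (n - 1) < p * (n - 1) := Nat.mul_lt_mul_of_pos_right (by omega) (by omega)
    omega
  have h2 : (n - p) * (i * q) < p * (n - 1) * (i * q) :=
    Nat.mul_lt_mul_of_pos_right h1 (Nat.mul_pos hi hq)
  calc (n - p) * i * q = (n - p) * (i * q) := by ring
    _ < p * (n - 1) * (i * q) := h2
    _ = i * (p * (n - 1) * q) := by ring

theorem group_step (hn : p < n) (hβ : β ≠ 0) (q x l L B : ℕ) (hq : 1 ≤ q) (hl : l ≤ L)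
    (hx : x + l ≤ n - 1) (hB : p * (n - 1) * q + (n - p) * L * q ≤ B) :
    ∃ C0 : (ZMod p)[X], ∀ F : (ZMod p)[X], F.natDegree < (x + l + 1) * (p * (n - 1) * q) →
      ∃ F' : (ZMod p)[X], F'.natDegree < (x + 1) * (p * (n - 1) * q) ∧
        Fam p n E β α (l + 1) B (C0 + F - F') := by
  set N := p * (n - 1) * q with hN
  refine ⟨C E * X ^ (p * x * q * n) +
        ∑ i ∈ Finset.range l, C E * X ^ (p * (x + (i + 1)) * q * n), fun F hF => ?_⟩
  obtain ⟨v, hv1, hv2⟩ := topdown N x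
    (fun i => X ^ (x * N) * (X ^ ((i + 1) * N) - X ^ ((n - p) * (i + 1) * q))) l (by
      intro i _
      have h1 := monic_diff (p := p) (shift_lt (p := p) hn (show 1 ≤ i + 1 by omega) hq)
      rw [← hN] at h1
      refine ⟨(monic_X_pow _).mul h1.1, ?_⟩
      rw [(monic_X_pow _).natDegree_mul h1.1, natDegree_X_pow, h1.2]
      ring) (C β⁻¹ * F) ((natDegree_C_mul_le _ _).trans_lt hF)
  have hββ : (C β * C β⁻¹ : (ZMod p)[X]) = 1 := by
    rw [← C_mul, mul_inv_cancel₀ hβ, C_1]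
  set S : (ZMod p)[X] := ∑ i ∈ Finset.range l,
    X ^ (x * N) * (X ^ ((i + 1) * N) - X ^ ((n - p) * (i + 1) * q)) * v i with hS
  refine ⟨C β * (C β⁻¹ * F - S), (natDegree_C_mul_le _ _).trans_lt hv2, ?_⟩
  have hid := group_ident (p := p) (n := n) (E := E) (β := β) (α := α) q x l v
  rw [← hN, ← hS] at hid
  have hval : C E * X ^ (p * x * q * n) +
        ∑ i ∈ Finset.range l, C E * X ^ (p * (x + (i + 1)) * q * n) + F -
        C β * (C β⁻¹ * F - S) =
      Fv p n E β α (X ^ (p * x * q)) (-∑ i ∈ Finset.range l, X ^ ((n - p) * (i + 1) * q) * v i) +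
      ∑ i ∈ Finset.range l, Fv p n E β α (X ^ (p * (x + (i + 1)) * q)) (v i) := by
    rw [hid]
    linear_combination (-F) * hββ
  rw [hval, add_comm l 1]
  have hNB : N ≤ B := by omega
  have hpx : ∀ y, y ≤ n - 1 → p * y * q ≤ B := by
    intro y hy
    have : p * y * q ≤ p * (n - 1) * q := Nat.mul_le_mul_right q (Nat.mul_le_mul_left p hy)
    omega
  refine Fam.add (Fam.single _ _ ?_ ?_) ?_
  · exact (natDegree_X_pow_le _).trans (hpx x (by omega))
  · rw [natDegree_neg]
    refine natDegree_sum_le_of_forall_le _ _ fun i hi => ?_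
    rw [Finset.mem_range] at hi
    refine natDegree_mul_le.trans ?_
    rw [natDegree_X_pow]
    have h1 := hv1 i hi
    have h2 : (n - p) * (i + 1) * q ≤ (n - p) * L * q :=
      Nat.mul_le_mul_right q (Nat.mul_le_mul_left _ (by omega))
    omega
  · have h1 := Fam.sum (p := p) (n := n) (E := E) (β := β) (α := α) (B := B) (Finset.range l)
      (fun i => X ^ (p * (x + (i + 1)) * q)) v (fun i hi => by
        rw [Finset.mem_range] at hi
        refine ⟨(natDegree_X_pow_le _).trans (hpx _ (by omega)), ?_⟩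
        have := hv1 i hi
        omega)
    rwa [Finset.card_range] at h1

theorem groups (hn : p < n) (hβ : β ≠ 0) (q L B : ℕ) (hq : 1 ≤ q)
    (hB : p * (n - 1) * q + (n - p) * L * q ≤ B) : ∀ (G B0 : ℕ), B0 ≤ G * L → B0 ≤ n - 1 →
    ∃ C0 : (ZMod p)[X], ∀ F : (ZMod p)[X], F.natDegree < (B0 + 1) * (p * (n - 1) * q) →
      ∃ F' : (ZMod p)[X], F'.natDegree < p * (n - 1) * q ∧
        Fam p n E β α (B0 + G) B (C0 + F - F') := by
  intro G
  induction G with
  | zero =>
    intro B0 hB0 _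
    rw [zero_mul] at hB0
    refine ⟨0, fun F hF => ⟨F, ?_, ?_⟩⟩
    · have h1 : B0 = 0 := by omega
      rw [h1, zero_add, one_mul] at hF
      exact hF
    · rw [zero_add, sub_self]
      exact Fam.zero.mono (Nat.zero_le _) le_rfl
  | succ G ih =>
    intro B0 hB0 hB1
    by_cases hc : B0 ≤ L
    · obtain ⟨C0, hC0⟩ := group_step (p := p) (n := n) (E := E) (β := β) (α := α) hn hβ q 0 B0 L B
        hq hc (by omega) hB
      refine ⟨C0, fun F hF => ?_⟩
      obtain ⟨F', h1, h2⟩ := hC0 F (by rwa [zero_add])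
      refine ⟨F', ?_, h2.mono (by omega) le_rfl⟩
      rwa [zero_add, one_mul] at h1
    · obtain ⟨x, rfl⟩ : ∃ x, B0 = x + L := ⟨B0 - L, by omega⟩
      obtain ⟨C1, hC1⟩ := group_step (p := p) (n := n) (E := E) (β := β) (α := α) hn hβ q x L L B
        hq le_rfl hB1 hB
      obtain ⟨C2, hC2⟩ := ih x (by
        have : (G + 1) * L = G * L + L := by ring
        omega) (by omega)
      refine ⟨C1 + C2, fun F hF => ?_⟩
      obtain ⟨F1, h1, h2⟩ := hC1 F hF
      obtain ⟨F', h3, h4⟩ := hC2 F1 h1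
      refine ⟨F', h3, ?_⟩
      have h5 := h2.add h4
      have h6 : C1 + F - F1 + (C2 + F1 - F') = C1 + C2 + F - F' := by ring
      rw [h6] at h5
      exact h5.mono (by omega) le_rfl

theorem last_block (hn : p < n) (w : (ZMod p)[X]) (B : ℕ) (hB : w.natDegree + n ≤ B) :
    Fam p n E β α 2 B ((C E + C E * X ^ (p * n)) +
      C β * (X ^ (p * (n - 1)) - X ^ (n - p)) * w) := by
  have h1 := (Fam.single (p := p) (n := n) (E := E) (β := β) (α := α) (B := B)
    (1 : (ZMod p)[X]) (-(X ^ (n - p) * w)) (by simp) (by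
      rw [natDegree_neg]
      refine natDegree_mul_le.trans ?_
      rw [natDegree_X_pow]
      omega)).add
    (Fam.single (p := p) (n := n) (E := E) (β := β) (α := α) (B := B) (X ^ p : (ZMod p)[X]) w
      ((natDegree_X_pow_le _).trans (by omega)) (by omega))
  convert h1 using 1
  have h4 : (-(X ^ (n - p) * w : (ZMod p)[X])) ^ p = -(X ^ ((n - p) * p) * w ^ p) := by
    rw [← neg_one_mul, mul_pow, mul_pow, ← pow_mul, neg_one_pow_expChar]
    ring
  rw [Fv, Fv, h4, one_pow, one_pow, one_pow, ← pow_mul, ← pow_mul, ← pow_mul]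
  have h5 : (X ^ ((n - p) * p) : (ZMod p)[X]) = X ^ (p * (n - p)) := by rw [mul_comm]
  rw [h5]
  ring

theorem machine2 (hn : p < n) (hβ : β ≠ 0) (k : ℕ) (hk : (k : ZMod p) ≠ 0)
    (r s0 c0 e1 c1 c2 J B0 L : ℕ) (hr : 1 ≤ r) (hL : 1 ≤ L)
    (hFam : ∀ (m B : ℕ) (P : (ZMod p)[X]), Fam p n E β α m B P → PS k (r * B) (c1 * m + c2) P)
    (hLoc : ∀ R : (ZMod p)[X], ∃ f', PS k e1 c0 f' ∧
      C β * (X ^ (p * (n - 1)) - X ^ (n - p)) ∣ R - f')
    (hInit : WaringMod p k s0) (hB0 : B0 ≤ n - 1)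
    (hJ : (r : ℝ) * k * (1 - 1 / (k : ℝ)) ^ J * ((p * (n - 1) + (n - p) * L : ℕ) : ℝ) <
      B0 * ((p * (n - 1) : ℕ) : ℝ)) :
    ∃ d0 : ℕ, ∀ D : ℕ, d0 ≤ D → ∀ f : (ZMod p)[X], f.natDegree ≤ k * D →
      PS k D (s0 + J + c0 + (c1 * (B0 + (B0 / L + 1) + 2) + c2)) f := by
  have hk0 : k ≠ 0 := by
    rintro rfl
    exact hk (by simp)
  have hkp : 0 < k := Nat.pos_of_ne_zero hk0
  have hkr : (1 : ℝ) ≤ k := by exact_mod_cast hkp
  have hp2 : 2 ≤ p := (Fact.out : p.Prime).two_le
  have hθ : 0 ≤ 1 - 1 / (k : ℝ) := by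
    rw [sub_nonneg, div_le_one (by linarith)]
    exact hkr
  have hrr : (1 : ℝ) ≤ r := by exact_mod_cast hr
  have hθ0 : 0 ≤ (1 - 1 / (k : ℝ)) ^ J := pow_nonneg hθ J
  generalize hθdef : (1 - 1 / (k : ℝ)) ^ J = θ at hJ hθ0
  obtain ⟨A, hA⟩ : ∃ A, A = p * (n - 1) := ⟨_, rfl⟩
  obtain ⟨Z, hZ⟩ : ∃ Z, Z = p * (n - 1) + (n - p) * L := ⟨_, rfl⟩
  have hApos : 1 ≤ A := by
    rw [hA]
    exact Nat.mul_pos (by omega) (by omega)
  have hAZ : A ≤ Z := by omega
  rw [← hZ, ← hA] at hJ
  have hgap : 0 < (B0 : ℝ) * A - r * k * θ * Z := by linarith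
  obtain ⟨d1, hd1⟩ := exists_nat_gt
    (((r : ℝ) * Z * k * k + B0 * A * (r * n + r * Z)) / ((B0 : ℝ) * A - r * k * θ * Z))
  refine ⟨d1 + r * n + r * Z * (k * e1 + 1) + e1, fun D hD f hf => ?_⟩
  obtain ⟨q, hqdef⟩ : ∃ q, q = (D - r * n) / (r * Z) := ⟨_, rfl⟩
  have hrZ : 0 < r * Z := Nat.mul_pos hr (by omega)
  have hq1 : r * Z * q ≤ D - r * n := by
    rw [hqdef]
    exact Nat.mul_div_le _ _
  have hq2 : D - r * n < r * Z * q + r * Z := by
    have := Nat.lt_mul_div_succ (D - r * n) hrZ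
    rw [Nat.mul_add, mul_one, ← hqdef] at this
    exact this
  have hqe : k * e1 + 1 ≤ q := by
    rw [hqdef, Nat.le_div_iff_mul_le hrZ, mul_comm]
    omega
  have hq0 : 1 ≤ q := by omega
  -- the bound for the arguments of the family
  obtain ⟨B, hBdef⟩ : ∃ B, B = Z * q + n := ⟨_, rfl⟩
  have hrB : r * B ≤ D := by
    have h1 : r * B = r * Z * q + r * n := by
      rw [hBdef]
      ring
    omega
  have hAq : A * q ≤ Z * q := Nat.mul_le_mul_right q hAZ
  have hB1 : p * (n - 1) * q + (n - p) * L * q ≤ B := by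
    have h1 : p * (n - 1) * q + (n - p) * L * q = Z * q := by
      rw [hZ]
      ring
    omega
  have hBD : B ≤ D := (Nat.le_mul_of_pos_left B hr).trans hrB
  have hG : B0 ≤ (B0 / L + 1) * L := by
    have := Nat.lt_mul_div_succ B0 (show 0 < L by omega)
    rw [mul_comm]
    exact this.le
  obtain ⟨Cg, hCg⟩ := groups (p := p) (n := n) (E := E) (β := β) (α := α) hn hβ q L B hq0 hB1
    (B0 / L + 1) B0 hG hB0
  rw [← hA] at hCg
  obtain ⟨C1, hC1⟩ : ∃ C1 : (ZMod p)[X], C1 = C E + C E * X ^ (p * n) := ⟨_, rfl⟩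
  obtain ⟨H, hH⟩ : ∃ H : (ZMod p)[X], H = C β * (X ^ (p * (n - 1)) - X ^ (n - p)) := ⟨_, rfl⟩
  have hHne : H ≠ 0 := by
    rw [hH]
    refine mul_ne_zero (C_ne_zero.mpr hβ) ?_
    have h1 := monic_diff (p := p) (a := p * (n - 1)) (b := n - p) (by
      have : 1 * (n - 1) < p * (n - 1) := Nat.mul_lt_mul_of_pos_right (by omega) (by omega)
      omega)
    exact h1.1.ne_zero
  rw [← hH] at hLoc
  have hlast : ∀ w : (ZMod p)[X], w.natDegree < A * q → Fam p n E β α 2 B (C1 + H * w) := by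
    intro w hw
    have h1 := last_block (p := p) (E := E) (β := β) (α := α) hn w B (by omega)
    rw [← hC1, ← hH] at h1
    exact h1
  have hNk : A * q ≤ k * D := by
    have h1 : D ≤ k * D := Nat.le_mul_of_pos_left D hkp
    omega
  have hDk : D ≤ k * D := Nat.le_mul_of_pos_left D hkp
  have hPSdeg : ∀ (m : ℕ) (P : (ZMod p)[X]), Fam p n E β α m B P → P.natDegree ≤ k * D := by
    intro m P hP
    exact (hFam m B P hP).natDegree_le.trans (Nat.mul_le_mul_left k hrB)
  have hCgdeg : Cg.natDegree ≤ k * D := by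
    obtain ⟨F', h1, h2⟩ := hCg 0 (by
      rw [natDegree_zero]
      exact Nat.mul_pos (by omega) (Nat.mul_pos hApos hq0))
    have h3 := hPSdeg _ _ h2
    have h4 : Cg = Cg + 0 - F' + F' := by ring
    rw [h4]
    exact (natDegree_add_le _ _).trans (max_le h3 (by omega))
  have hC1deg : C1.natDegree ≤ k * D := by
    have h1 := hPSdeg _ _ (hlast 0 (by
      rw [natDegree_zero]
      exact Nat.mul_pos hApos hq0))
    rwa [mul_zero, add_zero] at h1
  obtain ⟨f1, hf1⟩ : ∃ f1, f1 = f - (Cg + C1) := ⟨_, rfl⟩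
  have hf1deg : f1.natDegree ≤ k * D := by
    rw [hf1]
    refine (natDegree_sub_le _ _).trans (max_le hf ?_)
    exact (natDegree_add_le _ _).trans (max_le hCgdeg hC1deg)
  obtain ⟨Y, hY⟩ : ∃ Y : (ZMod p)[X], Y = C (f1.coeff (k * D) - 1) * X ^ (k * D) := ⟨_, rfl⟩
  have hconst : PS k D s0 Y := by
    obtain ⟨Lc, hL1, hL2⟩ := hInit (f1.coeff (k * D) - 1)
    rw [hY, ← hL2]
    exact PS.of_const Lc hL1 D le_rfl
  have hf2deg : (f1 - Y).natDegree ≤ k * D := by
    rw [hY]
    exact (natDegree_sub_le _ _).trans (max_le hf1deg (natDegree_C_mul_X_pow_le _ _))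
  have hf2c : (f1 - Y).coeff (k * D) = 1 := by
    rw [hY, coeff_sub, coeff_C_mul_X_pow, if_pos rfl]
    ring
  obtain ⟨R, E', hR1, hR2, hR3⟩ := iter k hk J D (f1 - Y) hf2deg hf2c
  rw [hθdef] at hR3
  have hcover : R.natDegree < (B0 + 1) * (A * q) := by
    refine hR2.trans_lt ?_
    have hDr : ((d1 : ℝ)) ≤ D := by
      have : d1 ≤ D := by omega
      exact_mod_cast this
    have hd1' : (r : ℝ) * Z * k * k + B0 * A * (r * n + r * Z) <
        ((B0 : ℝ) * A - r * k * θ * Z) * d1 := by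
      rw [div_lt_iff₀ hgap] at hd1
      linarith
    have hd2 : ((B0 : ℝ) * A - r * k * θ * Z) * d1 ≤ ((B0 : ℝ) * A - r * k * θ * Z) * D :=
      mul_le_mul_of_nonneg_left hDr hgap.le
    have hq3 : (D : ℝ) - r * n < r * Z * q + r * Z := by
      have h1 : ((D - r * n : ℕ) : ℝ) = (D : ℝ) - r * n := by
        rw [Nat.cast_sub (by omega), Nat.cast_mul]
      rw [← h1]
      exact_mod_cast hq2
    have hBA : (0 : ℝ) ≤ B0 * A := by positivity
    have hMq : (B0 : ℝ) * A * (D - r * n) ≤ B0 * A * (r * Z * q + r * Z) :=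
      mul_le_mul_of_nonneg_left hq3.le hBA
    have hE' : (E' : ℝ) ≤ k + θ * D := by
      refine hR3.trans ?_
      have h1 : max ((D : ℝ) - k) 0 ≤ D :=
        max_le (by linarith) (Nat.cast_nonneg _)
      have h2 := mul_le_mul_of_nonneg_left h1 hθ0
      linarith
    have hrZpos : (0 : ℝ) < r * Z := by exact_mod_cast hrZ
    have hmain : ((k * E' : ℕ) : ℝ) < (((B0 + 1) * (A * q) : ℕ) : ℝ) := by
      push_cast
      have h1 : (r : ℝ) * Z * (k * E') ≤ r * Z * (k * (k + θ * D)) := by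
        refine mul_le_mul_of_nonneg_left ?_ hrZpos.le
        exact mul_le_mul_of_nonneg_left hE' (by linarith)
      have h2 : (r : ℝ) * Z * (k * (k + θ * D)) = r * Z * k * k + r * k * θ * Z * D := by ring
      have h3 : (r : ℝ) * Z * (k * E') < r * Z * ((B0 + 1) * (A * q)) := by
        have h4 : (0 : ℝ) ≤ r * Z * (A * q) := by positivity
        have h5 : (r : ℝ) * Z * ((B0 + 1) * (A * q)) = B0 * A * (r * Z * q) + r * Z * (A * q) := by
          ring
        rw [h5]
        nlinarith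
      exact lt_of_mul_lt_mul_left h3 hrZpos.le
    exact_mod_cast hmain
  obtain ⟨R', hR'1, hR'2⟩ := hCg R hcover
  obtain ⟨f', hf'1, w, hw⟩ := hLoc R'
  have hwdeg : w.natDegree < A * q := by
    by_cases hw0 : w = 0
    · rw [hw0, natDegree_zero]
      exact Nat.mul_pos hApos hq0
    · have h1 : (R' - f').natDegree = H.natDegree + w.natDegree := by
        rw [hw, natDegree_mul hHne hw0]
      have h2 : (R' - f').natDegree ≤ max R'.natDegree (k * e1) :=
        (natDegree_sub_le _ _).trans (max_le_max le_rfl hf'1.natDegree_le)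
      have h3 : k * e1 < A * q := by
        have : 1 * q ≤ A * q := Nat.mul_le_mul_right q hApos
        omega
      have h4 : max R'.natDegree (k * e1) < A * q := max_lt hR'1 h3
      omega
  have hfam := hR'2.add (hlast w hwdeg)
  have htot := ((hconst.add hR1).add (hf'1.mono (B' := D) (by omega) le_rfl)).add
    ((hFam _ _ _ hfam).mono hrB le_rfl)
  have hfin : Y + (f1 - Y - R) + f' + (Cg + R - R' + (C1 + H * w)) = f := by
    rw [← hw, hf1]
    ring
  rw [hfin] at htot
  exact htot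

end

end Pool.Agent.W192
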