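import Pool.Agent.Lib.MP_192f66_nt.LocIrr

set_option autoImplicit false

/-!
# The local step
-/

namespace Pool.Agent.W192

open Polynomial

section

variable (p : ℕ) [Fact p.Prime]

theorem localStep (k s r a b : ℕ) (hk1 : 1 ≤ k) (hkp : k < p) (hr1 : 1 ≤ r) (hW : WaringMod p k s)
    (hr : r * k = a * p + b) (ha : 1 ≤ a) (hb : 1 ≤ b) (hab : a + b < p)
    (H : (ZMod p)[X]) (hH : H ≠ 0) (R : (ZMod p)[X]) :
    ∃ f', PS k (r * H.natDegree) (s + (a + b) * s) f' ∧ H ∣ R - f' := by
  have hb0 : (b : ZMod p) ≠ 0 := by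
    intro h
    have h1 : p ∣ b := (ZMod.natCast_eq_zero_iff _ _).mp h
    have := Nat.le_of_dvd hb h1
    omega
  obtain ⟨ε, hε⟩ := exists_weights p (a + b) hab
  set E0 : (ZMod p)[X] := C (∑ i ∈ Finset.range (a + b), ε i) with hE0
  obtain ⟨g, v, hgv⟩ := Lc.all p k s a b hk1 hkp hb0 hW H hH (R - E0)
  have hmod : ∀ f : (ZMod p)[X], H ∣ f % H - f := by
    intro f
    rw [← dvd_neg, neg_sub]
    exact ⟨f / H, by
      have := EuclideanDomain.div_add_mod f H
      linear_combination -this⟩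
  have hdeg : ∀ f : (ZMod p)[X], (f % H).natDegree ≤ H.natDegree := fun f =>
    natDegree_le_natDegree (EuclideanDomain.mod_lt f hH).le
  have hgv2 := dvd_congr p k s a b (g' := fun i => g i % H) (v' := v % H) (fun i => hmod (g i))
    (hmod v) hgv
  have hle : H.natDegree ≤ r * H.natDegree := Nat.le_mul_of_pos_left _ hr1
  refine ⟨∑ i, (g i % H) ^ k + Wf p a b ε 1 (v % H), ?_, ?_⟩
  · refine PS.add ?_ (PS_Wf p k s r a b hW hr ε 1 (v % H) H.natDegree (by simp) (hdeg v))
    have h1 := PS.sum (k := k) (B := r * H.natDegree) (c := 1) (Finset.univ : Finset (Fin s))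
      (fun i => (g i % H) ^ k) fun i _ => PS.single _ ((hdeg (g i)).trans hle)
    rwa [Finset.card_univ, Fintype.card_fin, mul_one] at h1
  · rw [Wf, ident p a b ha hb ε hε, ← hE0, one_pow, one_pow, one_pow, mul_one, one_mul, one_mul]
    convert hgv2 using 1
    ring

end

end Pool.Agent.W192
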