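import Pool.Agent.Lib.MP_192f66_nt.Mach2
import Pool.Agent.Lib.MP_192f66_nt.Main

set_option autoImplicit false

/-!
# The general bound with grouped families
-/

namespace Pool.Agent.W192

open Polynomial

section

variable (p : ℕ) [Fact p.Prime]

/-- The choice of the number of diminishing steps. -/
theorem exists_steps (k r c : ℕ) (hk : 1 ≤ k) (hr : 1 ≤ r) (hc : 1 ≤ c) :
    ∃ J : ℕ, (J : ℝ) ≤ k * Real.log (r * c) + 1 ∧
      (r : ℝ) * k * (1 - 1 / (k : ℝ)) ^ J ≤ k / c := by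
  have hkr : (0 : ℝ) < k := by exact_mod_cast hk
  have hrpos : (1 : ℝ) ≤ r := by exact_mod_cast hr
  have hcpos : (1 : ℝ) ≤ c := by exact_mod_cast hc
  have hlog : 0 ≤ Real.log ((r : ℝ) * c) := by
    apply Real.log_nonneg
    nlinarith
  refine ⟨⌈(k : ℝ) * Real.log (r * c)⌉₊, (Nat.ceil_lt_add_one (by positivity)).le, ?_⟩
  have hJ : (k : ℝ) * Real.log (r * c) ≤ (⌈(k : ℝ) * Real.log (r * c)⌉₊ : ℕ) := Nat.le_ceil _
  generalize ⌈(k : ℝ) * Real.log (r * c)⌉₊ = J at hJ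
  have h1 : (1 - 1 / (k : ℝ)) ^ J ≤ Real.exp (-(J / k)) := by
    have h2 : 1 - 1 / (k : ℝ) ≤ Real.exp (-(1 / k)) := by
      have := Real.add_one_le_exp (-(1 / (k : ℝ)))
      linarith
    have h3 : 0 ≤ 1 - 1 / (k : ℝ) := by
      rw [sub_nonneg, div_le_one hkr]
      exact_mod_cast hk
    refine (pow_le_pow_left₀ h3 h2 J).trans ?_
    rw [← Real.exp_nat_mul]
    apply le_of_eq
    congr 1
    ring
  have h4 : Real.exp (-(J / k)) ≤ ((r : ℝ) * c)⁻¹ := by
    have h5 : Real.log ((r : ℝ) * c) ≤ J / k := by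
      rw [le_div_iff₀ hkr, mul_comm]
      exact hJ
    rw [Real.exp_neg]
    have h7 : (r : ℝ) * c ≤ Real.exp (J / k) := by
      rw [← Real.log_le_iff_le_exp (by positivity)]
      exact h5
    exact inv_anti₀ (by positivity) h7
  have h9 := mul_le_mul_of_nonneg_left (h1.trans h4) (show (0 : ℝ) ≤ r * k by positivity)
  refine h9.trans (le_of_eq ?_)
  field_simp

/-- The assembly: from a way to write families as sums of `k`-th powers to the bound. -/
theorem assemble (k s r a b c1 c2 L : ℕ) (hk2 : 2 ≤ k) (hkp : k < p) (hr1 : 1 ≤ r)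
    (hW : WaringMod p k s) (hr : r * k = a * p + b) (ha : 1 ≤ a) (hb : 1 ≤ b) (hab : a + b < p)
    (hc1 : 2 ≤ c1) (hL1 : 1 ≤ L) (hLp : L ≤ p) (E : ZMod p)
    (hFam : ∀ (m B : ℕ) (P : (ZMod p)[X]), Fam p (a * p + b) E b a m B P →
      PS k (r * B) (c1 * m + c2) P) :
    ∃ J B0 : ℕ, (J : ℝ) ≤ k * Real.log (r * c1) + 1 ∧
      (c1 : ℝ) * B0 ≤ k + c1 + k * (((r * k - p : ℕ) : ℝ) * L / (p * ((r * k - 1 : ℕ) : ℝ))) ∧
      Enough p k (s + J + (s + (a + b) * s) + (c1 * (B0 + (B0 / L + 1) + 2) + c2)) := by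
  have hb0 : (b : ZMod p) ≠ 0 := by
    intro h
    have h1 : p ∣ b := (ZMod.natCast_eq_zero_iff _ _).mp h
    have := Nat.le_of_dvd hb h1
    omega
  have hk0 : (k : ZMod p) ≠ 0 := by
    intro h
    have h1 : p ∣ k := (ZMod.natCast_eq_zero_iff _ _).mp h
    have := Nat.le_of_dvd (by omega) h1
    omega
  obtain ⟨J, hJ1, hJ2⟩ := exists_steps k r c1 (by omega) hr1 (by omega)
  obtain ⟨n, hn⟩ : ∃ n, n = a * p + b := ⟨_, rfl⟩
  have hrn : r * k = n := by rw [hr, hn]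
  rw [← hn] at hFam
  rw [hrn]
  have hpn : p < n := by
    have : 1 * p ≤ a * p := Nat.mul_le_mul_right p ha
    omega
  have hr2 : 2 ≤ r := by
    by_contra hcon
    have : r = 1 := by omega
    rw [this, one_mul] at hrn
    omega
  obtain ⟨A, hA⟩ : ∃ A, A = p * (n - 1) := ⟨_, rfl⟩
  obtain ⟨Z, hZ⟩ : ∃ Z, Z = p * (n - 1) + (n - p) * L := ⟨_, rfl⟩
  have hApos : 0 < A := by
    rw [hA]
    exact Nat.mul_pos (by omega) (by omega)
  have hZA : Z ≤ 2 * A := by
    have h1 : (n - p) * L ≤ (n - 1) * p := Nat.mul_le_mul (by omega) hLp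
    have h2 : (n - 1) * p = A := by rw [hA, mul_comm]
    omega
  have hcA : 0 < c1 * A := Nat.mul_pos (by omega) hApos
  have hB0 : k * Z / (c1 * A) + 1 ≤ n - 1 := by
    have h1 : k * Z / (c1 * A) ≤ k := by
      apply Nat.div_le_of_le_mul
      calc k * Z ≤ k * (2 * A) := Nat.mul_le_mul_left k hZA
        _ = 2 * A * k := by ring
        _ ≤ c1 * A * k := Nat.mul_le_mul_right k (Nat.mul_le_mul_right A hc1)
    have h2 : 2 * k ≤ r * k := Nat.mul_le_mul_right k hr2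
    omega
  have hmach := machine2 (p := p) (n := n) (E := E) (β := (b : ZMod p)) (α := (a : ZMod p)) hpn hb0
    k hk0 r s (s + (a + b) * s)
    (r * (C (b : ZMod p) * (X ^ (p * (n - 1)) - X ^ (n - p)) : (ZMod p)[X]).natDegree) c1 c2 J
    (k * Z / (c1 * A) + 1) L hr1 hL1 hFam
    (fun R => localStep p k s r a b (by omega) hkp hr1 hW hr ha hb hab _ (by
      refine mul_ne_zero (C_ne_zero.mpr hb0) ?_
      have h1 := monic_diff (p := p) (a := p * (n - 1)) (b := n - p) (by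
        have hp2 : 2 ≤ p := (Fact.out : p.Prime).two_le
        have : 1 * (n - 1) < p * (n - 1) := Nat.mul_lt_mul_of_pos_right (by omega) (by omega)
        omega)
      exact h1.1.ne_zero) R) hW hB0 (by
      rw [← hZ, ← hA]
      have h1 : (r : ℝ) * k * (1 - 1 / (k : ℝ)) ^ J * Z ≤ k / c1 * Z :=
        mul_le_mul_of_nonneg_right hJ2 (Nat.cast_nonneg Z)
      refine h1.trans_lt ?_
      have hc1r : (0 : ℝ) < c1 := by
        have : 0 < c1 := by omega
        exact_mod_cast this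
      have h2 : k * Z < c1 * A * (k * Z / (c1 * A) + 1) := Nat.lt_mul_div_succ _ hcA
      have h3 : ((k * Z : ℕ) : ℝ) < ((c1 * A * (k * Z / (c1 * A) + 1) : ℕ) : ℝ) := by
        exact_mod_cast h2
      rw [Nat.cast_mul, Nat.cast_mul, Nat.cast_mul] at h3
      rw [div_mul_eq_mul_div, div_lt_iff₀ hc1r]
      linarith)
  refine ⟨J, k * Z / (c1 * A) + 1, hJ1, ?_, enough_of p k _ (by omega) hmach⟩
  have hc1r : (0 : ℝ) < c1 := by
    have : 0 < c1 := by omega
    exact_mod_cast this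
  have hpr : (0 : ℝ) < p := by
    have : 0 < p := by omega
    exact_mod_cast this
  have hnr : (0 : ℝ) < ((n - 1 : ℕ) : ℝ) := by
    have : 0 < n - 1 := by omega
    exact_mod_cast this
  have h1 : ((k * Z / (c1 * A) : ℕ) : ℝ) ≤ ((k * Z : ℕ) : ℝ) / ((c1 * A : ℕ) : ℝ) := Nat.cast_div_le
  have h2 : (c1 : ℝ) * (((k * Z : ℕ) : ℝ) / ((c1 * A : ℕ) : ℝ)) =
      k + k * (((n - p : ℕ) : ℝ) * L / (p * ((n - 1 : ℕ) : ℝ))) := by
    rw [hZ, hA]
    push_cast
    field_simp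
  have h3 := mul_le_mul_of_nonneg_left h1 hc1r.le
  rw [h2] at h3
  push_cast
  linarith

end

end Pool.Agent.W192
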