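import Pool.Agent.Lib.MP_192f66_nt.Main2

set_option autoImplicit false

/-!
# The case `p = 2 k - 1`
-/

namespace Pool.Agent.W192

open Polynomial

section

variable (p : ℕ) [Fact p.Prime]

theorem Fv_one (u v : (ZMod p)[X]) :
    Fv p (1 * p + 1) 1 ((1 : ℕ) : ZMod p) ((1 : ℕ) : ZMod p) u v =
      u ^ p * u + (u ^ p * v + u * v ^ p) := by
  have h1 : 1 * p + 1 - 1 = p := by omega
  have h2 : 1 * p + 1 - p = 1 := by omega
  rw [Fv, h1, h2, Nat.cast_one, C_1]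
  ring

theorem pair_ident {a b : ZMod p} (hab : a ^ 2 + b ^ 2 = -1) (u v u' v' : (ZMod p)[X]) :
    Fv p (1 * p + 1) 1 ((1 : ℕ) : ZMod p) ((1 : ℕ) : ZMod p) u v +
      Fv p (1 * p + 1) 1 ((1 : ℕ) : ZMod p) ((1 : ℕ) : ZMod p) u' v' =
    (u + v) ^ (p + 1) + (u' + v') ^ (p + 1) + (C a * v + C b * v') ^ (p + 1) +
      (C b * v - C a * v') ^ (p + 1) := by
  have hC : (C a ^ 2 + C b ^ 2 : (ZMod p)[X]) = -1 := by
    rw [← C_pow, ← C_pow, ← C_add, hab, C_neg, C_1]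
  have e1 : (u + v) ^ (p + 1) = (u ^ p + v ^ p) * (u + v) := by
    rw [pow_succ, add_pow_char]
  have e2 : (u' + v') ^ (p + 1) = (u' ^ p + v' ^ p) * (u' + v') := by
    rw [pow_succ, add_pow_char]
  have hCa : (C a : (ZMod p)[X]) ^ p = C a := by rw [← C_pow, ZMod.pow_card]
  have hCb : (C b : (ZMod p)[X]) ^ p = C b := by rw [← C_pow, ZMod.pow_card]
  have e3 : (C a * v + C b * v') ^ (p + 1) =
      (C a * v ^ p + C b * v' ^ p) * (C a * v + C b * v') := by
    rw [pow_succ, add_pow_char, mul_pow, mul_pow, hCa, hCb]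
  have e4 : (C b * v - C a * v') ^ (p + 1) =
      (C b * v ^ p - C a * v' ^ p) * (C b * v - C a * v') := by
    rw [pow_succ, sub_pow_char, mul_pow, mul_pow, hCa, hCb]
  rw [Fv_one, Fv_one, e1, e2, e3, e4]
  linear_combination (-(v ^ p * v) - v' ^ p * v') * hC

theorem pair_PS (k : ℕ) (hk : 2 * k = 1 * p + 1) (B : ℕ) (u v u' v' : (ZMod p)[X])
    (hu : u.natDegree ≤ B) (hv : v.natDegree ≤ B) (hu' : u'.natDegree ≤ B)
    (hv' : v'.natDegree ≤ B) :
    PS k (2 * B) 4 (Fv p (1 * p + 1) 1 ((1 : ℕ) : ZMod p) ((1 : ℕ) : ZMod p) u v +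
      Fv p (1 * p + 1) 1 ((1 : ℕ) : ZMod p) ((1 : ℕ) : ZMod p) u' v') := by
  obtain ⟨a, b, hab⟩ := ZMod.sq_add_sq p (-1)
  rw [pair_ident p hab]
  have hpow : ∀ y : (ZMod p)[X], y.natDegree ≤ B → PS k (2 * B) 1 (y ^ (p + 1)) := by
    intro y hy
    have h1 : p + 1 = 2 * k := by omega
    rw [h1, pow_mul]
    exact PS.single _ (natDegree_pow_le_of_le 2 hy)
  have hC : ∀ (x : ZMod p) (y : (ZMod p)[X]), y.natDegree ≤ B → (C x * y).natDegree ≤ B :=
    fun x y hy => (natDegree_C_mul_le _ _).trans hy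
  exact (((hpow _ ((natDegree_add_le _ _).trans (max_le hu hv))).add
    (hpow _ ((natDegree_add_le _ _).trans (max_le hu' hv')))).add
    (hpow _ ((natDegree_add_le _ _).trans (max_le (hC _ _ hv) (hC _ _ hv'))))).add
    (hpow _ ((natDegree_sub_le _ _).trans (max_le (hC _ _ hv) (hC _ _ hv'))))

theorem pairs_PS (k : ℕ) (hk : 2 * k = 1 * p + 1) (B : ℕ) :
    ∀ L : List ((ZMod p)[X] × (ZMod p)[X]),
    (∀ x ∈ L, x.1.natDegree ≤ B ∧ x.2.natDegree ≤ B) →
    PS k (2 * B) (2 * (L.length + 1))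
      (L.map fun x => Fv p (1 * p + 1) 1 ((1 : ℕ) : ZMod p) ((1 : ℕ) : ZMod p) x.1 x.2).sum
  | [], _ => by
    rw [List.map_nil, List.sum_nil]
    exact PS.zero.mono le_rfl (Nat.zero_le _)
  | [x], h => by
    have h1 := h x List.mem_cons_self
    have h2 := pair_PS p k hk B x.1 x.2 0 0 h1.1 h1.2 (by simp) (by simp)
    have h3 : Fv p (1 * p + 1) 1 ((1 : ℕ) : ZMod p) ((1 : ℕ) : ZMod p) 0 0 = 0 := by
      rw [Fv_one]
      ring
    rw [h3, add_zero] at h2
    rw [List.map_cons, List.map_nil, List.sum_cons, List.sum_nil, add_zero]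
    exact h2.mono le_rfl (by rw [List.length_cons, List.length_nil])
  | x :: y :: L, h => by
    have h1 := h x List.mem_cons_self
    have h2 := h y (List.mem_cons_of_mem _ List.mem_cons_self)
    have h3 := pair_PS p k hk B x.1 x.2 y.1 y.2 h1.1 h1.2 h2.1 h2.2
    have h4 := pairs_PS k hk B L fun z hz =>
      h z (List.mem_cons_of_mem _ (List.mem_cons_of_mem _ hz))
    rw [List.map_cons, List.map_cons, List.sum_cons, List.sum_cons, ← add_assoc]
    refine (h3.add h4).mono le_rfl ?_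
    rw [List.length_cons, List.length_cons]
    omega

theorem waringMod_two (k : ℕ) (hk2 : 2 ≤ k) (hk : 2 * k = 1 * p + 1) : WaringMod p k 2 := by
  intro x
  obtain ⟨L, h1, h2⟩ := waringMod_gcd p k (by omega) x
  refine ⟨L, h1.trans ?_, h2⟩
  have h3 : Nat.gcd (p - 1) k ∣ 2 := by
    have h4 : Nat.gcd (p - 1) k ∣ 2 * k := (Nat.gcd_dvd_right _ _).mul_left 2
    have h5 : Nat.gcd (p - 1) k ∣ p - 1 := Nat.gcd_dvd_left _ _
    have h6 : 2 = 2 * k - (p - 1) := by omega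
    rw [h6]
    exact Nat.dvd_sub h4 h5
  exact Nat.le_of_dvd (by norm_num) h3

/-- The bound for `p = 2 k - 1`. -/
theorem bound_special (k : ℕ) (hk2 : 2 ≤ k) (hk : 2 * k = 1 * p + 1) :
    ∃ S : ℕ, 0 < S ∧ Enough p k S ∧ (S : ℝ) ≤ (1 + Real.log 4) * k + 22 := by
  have hkp : k < p := by omega
  obtain ⟨J, B0, h1, h2, h3⟩ := assemble p k 2 2 1 1 2 2 k hk2 hkp (by norm_num)
    (waringMod_two p k hk2 hk) hk le_rfl le_rfl (by omega) le_rfl (by omega) hkp.le 1 (by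
      rintro m B P ⟨L, hL1, hL2, rfl⟩
      exact (pairs_PS p k hk B L hL2).mono le_rfl (by omega))
  have hkr : (0 : ℝ) < k := by
    have : 0 < k := by omega
    exact_mod_cast this
  have hpr : (0 : ℝ) < p := by
    have : 0 < p := by omega
    exact_mod_cast this
  have hkpr : (k : ℝ) ≤ p := by exact_mod_cast hkp.le
  have hex : (k : ℝ) * (((2 * k - p : ℕ) : ℝ) * k / (p * ((2 * k - 1 : ℕ) : ℝ))) ≤ 1 := by
    have e1 : 2 * k - p = 1 := by omega
    have e2 : 2 * k - 1 = p := by omega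
    rw [e1, e2, Nat.cast_one, one_mul, ← mul_div_assoc, div_le_one (by positivity)]
    exact mul_le_mul hkpr hkpr hkr.le hpr.le
  have hB0 : 2 * B0 ≤ k + 3 := by
    have h4 : (2 : ℝ) * B0 ≤ k + 3 := by
      push_cast at h2
      linarith
    exact_mod_cast h4
  have hB1 : B0 / k ≤ 1 := by
    have h5 : B0 < k * 2 := by omega
    have := Nat.div_lt_of_lt_mul h5
    omega
  refine ⟨_, ?_, h3, ?_⟩
  · omega
  · have h6 : 2 + J + (2 + (1 + 1) * 2) + (2 * (B0 + (B0 / k + 1) + 2) + 2) ≤ J + k + 21 := by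
      omega
    have h7 : (((2 + J + (2 + (1 + 1) * 2) + (2 * (B0 + (B0 / k + 1) + 2) + 2) : ℕ)) : ℝ) ≤
        ((J + k + 21 : ℕ) : ℝ) := by exact_mod_cast h6
    refine h7.trans ?_
    push_cast
    have h8 : ((2 : ℕ) : ℝ) * ((2 : ℕ) : ℝ) = 4 := by norm_num
    rw [h8] at h1
    linarith

end

end Pool.Agent.W192
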