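import Pool.Agent.Lib.MP_192f66_nt.Fam

set_option autoImplicit false

/-!
# Waring's problem modulo a prime
-/

namespace Pool.Agent.W192

open Polynomial

open scoped Pointwise

section

variable (p : ℕ) [Fact p.Prime]

/-- The set of sums of `j` `k`-th powers. -/
def SumSet (k : ℕ) : ℕ → Finset (ZMod p)
  | 0 => {0}
  | j + 1 => SumSet k j + Finset.univ.image fun x : ZMod p => x ^ k

theorem mem_SumSet (k : ℕ) : ∀ (j : ℕ) (x : ZMod p), x ∈ SumSet p k j →
    ∃ L : List (ZMod p), L.length ≤ j ∧ (L.map fun e => e ^ k).sum = x := by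
  intro j
  induction j with
  | zero =>
    intro x hx
    rw [SumSet, Finset.mem_singleton] at hx
    exact ⟨[], le_rfl, by rw [hx]; simp⟩
  | succ j ih =>
    intro x hx
    rw [SumSet, Finset.mem_add] at hx
    obtain ⟨y, hy, z, hz, rfl⟩ := hx
    obtain ⟨L, hL1, hL2⟩ := ih y hy
    rw [Finset.mem_image] at hz
    obtain ⟨e, _, rfl⟩ := hz
    refine ⟨e :: L, ?_, ?_⟩
    · rw [List.length_cons]
      omega
    · rw [List.map_cons, List.sum_cons, hL2, add_comm]

theorem SumSet_nonempty (k : ℕ) (j : ℕ) : (SumSet p k j).Nonempty := by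
  induction j with
  | zero => exact Finset.singleton_nonempty 0
  | succ j ih =>
    rw [SumSet]
    exact ih.add ⟨(0 : ZMod p) ^ k, Finset.mem_image_of_mem _ (Finset.mem_univ _)⟩

theorem card_pow_image (k : ℕ) (hk : 1 ≤ k) :
    1 + (p - 1) / Nat.gcd (p - 1) k ≤ (Finset.univ.image fun x : ZMod p => x ^ k).card := by
  classical
  set R := (powMonoidHom k : (ZMod p)ˣ →* (ZMod p)ˣ).range with hR
  have h1 : Nat.card R = (p - 1) / Nat.gcd (p - 1) k := by
    rw [hR, IsCyclic.card_powMonoidHom_range, Nat.card_eq_fintype_card, ZMod.card_units]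
  have hinj : Function.Injective fun u : R => ((u : (ZMod p)ˣ) : ZMod p) := by
    intro u v huv
    exact Subtype.ext (Units.ext huv)
  have : Fintype R := Fintype.ofFinite R
  set S : Finset (ZMod p) := Finset.univ.image fun u : R => ((u : (ZMod p)ˣ) : ZMod p) with hS
  have hScard : S.card = (p - 1) / Nat.gcd (p - 1) k := by
    rw [hS, Finset.card_image_of_injective _ hinj, Finset.card_univ, ← h1,
      Nat.card_eq_fintype_card]
  have h0 : (0 : ZMod p) ∉ S := by
    rw [hS, Finset.mem_image]
    rintro ⟨u, _, hu⟩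
    exact (u : (ZMod p)ˣ).ne_zero hu
  have hsub : insert 0 S ⊆ Finset.univ.image fun x : ZMod p => x ^ k := by
    intro x hx
    rw [Finset.mem_insert] at hx
    rw [Finset.mem_image]
    rcases hx with rfl | hx
    · exact ⟨0, Finset.mem_univ _, zero_pow (by omega)⟩
    · rw [hS, Finset.mem_image] at hx
      obtain ⟨u, _, rfl⟩ := hx
      obtain ⟨w, hw⟩ := u.2
      refine ⟨(w : ZMod p), Finset.mem_univ _, ?_⟩
      rw [← hw, powMonoidHom_apply, Units.val_pow_eq_pow_val]
  have h2 := Finset.card_le_card hsub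
  rw [Finset.card_insert_of_notMem h0, hScard] at h2
  omega

theorem card_SumSet (k : ℕ) (hk : 1 ≤ k) (j : ℕ) :
    min p (1 + j * ((p - 1) / Nat.gcd (p - 1) k)) ≤ (SumSet p k j).card := by
  induction j with
  | zero =>
    rw [SumSet, Finset.card_singleton, zero_mul]
    exact min_le_right _ _
  | succ j ih =>
    have hp : p.Prime := Fact.out
    have hne : (Finset.univ.image fun x : ZMod p => x ^ k).Nonempty :=
      ⟨(0 : ZMod p) ^ k, Finset.mem_image_of_mem _ (Finset.mem_univ _)⟩
    have h1 := ZMod.cauchy_davenport hp (SumSet_nonempty p k j) hne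
    have h2 := card_pow_image p k hk
    rw [SumSet]
    refine le_trans ?_ h1
    have h3 : (j + 1) * ((p - 1) / Nat.gcd (p - 1) k) =
        j * ((p - 1) / Nat.gcd (p - 1) k) + (p - 1) / Nat.gcd (p - 1) k := by ring
    rw [h3]
    have hp1 := hp.one_lt
    generalize hY : (p - 1) / Nat.gcd (p - 1) k = Y at h2 ih ⊢
    generalize hZ : j * Y = Z at ih ⊢
    have h4 := (SumSet_nonempty p k j).card_pos
    generalize (SumSet p k j).card = s at h4 ih ⊢
    generalize (Finset.univ.image fun x : ZMod p => x ^ k).card = t at h2 ⊢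
    rcases min_le_iff.mp ih with h5 | h5
    · refine le_min (min_le_left _ _) ((min_le_left _ _).trans ?_)
      omega
    · refine le_min (min_le_left _ _) ((min_le_right _ _).trans ?_)
      omega

/-- Every residue class modulo `p` is a sum of at most `gcd (p - 1) k` `k`-th powers. -/
theorem waringMod_gcd (k : ℕ) (hk : 1 ≤ k) : WaringMod p k (Nat.gcd (p - 1) k) := by
  intro x
  have hp : p.Prime := Fact.out
  refine mem_SumSet p k _ x ?_
  have h1 := card_SumSet p k hk (Nat.gcd (p - 1) k)
  rw [Nat.mul_div_cancel' (Nat.gcd_dvd_left _ _)] at h1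
  have h2 : min p (1 + (p - 1)) = p := by
    have := hp.one_lt
    omega
  rw [h2] at h1
  have h3 : SumSet p k (Nat.gcd (p - 1) k) = Finset.univ := by
    rw [← Finset.card_eq_iff_eq_univ, ZMod.card]
    refine le_antisymm ?_ h1
    have := Finset.card_le_univ (SumSet p k (Nat.gcd (p - 1) k))
    rwa [ZMod.card] at this
  rw [h3]
  exact Finset.mem_univ x

end

end Pool.Agent.W192
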